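import Pool.Agent.P.MP_df609a_nt.Dt.Par
import Pool.Agent.P.MP_df609a_nt.Ct.Farey
import Pool.Agent.P.MP_df609a_nt.Ct.TQ

/-! The class with a large middle prime and its count. -/

namespace Pool.Agent.P.MP_df609a_nt.Dt

open Finset Ct

theorem sg_le_sq (n : ℕ) : sg n ≤ n * n := by
  refine (sum_le_card_nsmul _ _ n fun d hd => Nat.divisor_le hd).trans ?_
  exact Nat.mul_le_mul_right _ (Nat.card_divisors_le_self n)

theorem sg_prime {p : ℕ} (hp : p.Prime) : sg p = p + 1 := by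
  rw [sg, hp.sum_divisors]

/-- The primes that extend a given unitary divisor. -/
theorem fixD {a k X D l κ e i q : ℕ} {G : Finset ℕ} (hκ : 1 ≤ κ) (he : e = 80 * κ + 1)
    (hq : q = i / (2000000 * e)) (hw : 500 * e ≤ 2 ^ q) (ha : 1 ≤ a) (hX : X < 2 ^ l)
    (hl : 2 * l ≤ i * (10 * κ)) (hD : 2 ^ (i / 8) * (4 * 2 ^ i) ^ (κ - 1) * a < D)
    (hT : a * X ≤ 2 ^ (i + i / 2) * D ^ 2)
    (hG : ∀ p ∈ G, p.Prime ∧ 2 ^ i ≤ p ∧ p ≤ 2 * 2 ^ i ∧
      ∃ f, Sol a k X (D * (p * f)) ∧ D.Coprime (p * f) ∧ p.Coprime f) :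
    G.card * 2 ^ q ≤ 500 * e * 2 ^ i := by
  rcases G.eq_empty_or_nonempty with rfl | ⟨p₀, h₀⟩
  · simp
  choose! g1 g2 g3 f g4 g5 g6 using hG
  have aD : a < D := lt_of_le_of_lt (Nat.le_mul_of_pos_left _ (by positivity)) hD
  have D1 := le_sg D
  have e1 : ∀ p ∈ G, sg D * ((p + 1) * sg (f p)) = k * D * (p * f p) + a := fun p hp => by
    rw [← sg_prime (g1 p hp), ← sg_mul (g6 p hp), ← sg_mul (g5 p hp), (g4 p hp).eq, mul_assoc]
  have sz : ∀ p ∈ G, ∀ x, x ∣ D * (p * f p) → x ≤ X ∧ x * x ≤ 2 ^ (i * (10 * κ)) := fun p hp x hx => by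
    have b1 := (Nat.le_of_dvd (g4 p hp).pos hx).trans (g4 p hp).hi
    refine ⟨b1, le_trans ?_ (two_le hl)⟩
    rw [two_mul, pow_add]
    exact Nat.mul_le_mul (by omega) (by omega)
  have k1 : k ≠ 0 := by
    rintro rfl
    have b1 := (g4 p₀ h₀).eq
    have b2 := le_sg (D * (p₀ * f p₀))
    have b3 := Nat.le_of_dvd (g4 p₀ h₀).pos (Dvd.intro _ rfl)
    omega
  obtain ⟨g, A, B, c1, c2, c3, c4⟩ : ∃ g A B : ℕ, 0 < g ∧ A.Coprime B ∧ sg D = A * g ∧
      k * D = B * g := Nat.exists_coprime' (Nat.gcd_pos_of_pos_left _ (by omega))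
  obtain ⟨c, c5⟩ : g ∣ a := by
    have := e1 p₀ h₀
    rw [c3, c4] at this
    exact (Nat.dvd_add_right ((dvd_mul_left g B).mul_right _)).1
      (this ▸ (dvd_mul_left g A).mul_right _)
  have e2 : ∀ p ∈ G, (A : ℤ) * ((p + 1) * sg (f p)) - B * (p * f p) = c := fun p hp => by
    have b1 := e1 p hp
    rw [c3, c4, c5] at b1
    have b2 : (A : ℤ) * g * ((p + 1) * sg (f p)) = B * g * (p * f p) + g * c := by exact_mod_cast b1
    exact mul_left_cancel₀ (a := (g : ℤ)) (by omega) (by linear_combination b2)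
  have A0 : 0 < A := Nat.pos_of_ne_zero (by rintro rfl; omega)
  have B0 : B ≠ 0 := by
    rintro rfl
    have := Nat.mul_ne_zero k1 (show D ≠ 0 by omega)
    omega
  have c0 : c ≠ 0 := by rintro rfl; omega
  have ga : g ≤ a := Nat.le_of_dvd ha ⟨c, c5⟩
  have e3 : ∀ p ∈ G, ∃ t : ℤ, (p : ℤ) * f p = p₀ * f p₀ + t * A := fun p hp => by
    obtain ⟨t, ht⟩ := (Nat.isCoprime_iff_coprime.2 c2).dvd_of_dvd_mul_left
      (z := (p : ℤ) * f p - p₀ * f p₀) ⟨(p + 1) * sg (f p) - (p₀ + 1) * sg (f p₀), by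
        linear_combination e2 p₀ h₀ - e2 p hp⟩
    exact ⟨t, by linear_combination ht⟩
  choose! t ht using e3
  refine fewD (A := A) (B := B) (U := (p₀ + 1) * sg (f p₀)) (V := p₀ * f p₀) (t := t)
    (u := fun p => sg (f p)) (v := fun p => f p) hκ he hq hw (by exact_mod_cast A0)
    (by exact_mod_cast B0) ?_ (by rw [e2 p₀ h₀]; exact_mod_cast c0) ?_
    fun p hp => ⟨g1 p hp, g2 p hp, g3 p hp, ht p hp, ?_, ?_, ?_, ?_⟩
  · have b1 : A ≤ sg D := c3 ▸ Nat.le_mul_of_pos_right _ c1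
    exact_mod_cast b1.trans ((sg_le_sq D).trans (sz p₀ h₀ D (Dvd.intro _ rfl)).2)
  · rw [e2 p₀ h₀, Nat.abs_cast]
    have b1 : 2 ^ (i / 8) * (4 * 2 ^ i) ^ (κ - 1) * c * g < A * g := by
      rw [← c3, mul_assoc, mul_comm c g, ← c5]; omega
    exact_mod_cast Nat.lt_of_mul_lt_mul_right b1
  · exact mul_left_cancel₀ (a := (A : ℤ)) (by omega)
      (by linear_combination e2 p hp - e2 p₀ h₀ + B * ht p hp)
  · have b1 : (D : ℤ) * (p * f p) ≤ X := by exact_mod_cast (g4 p hp).hi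
    have b2 : (D : ℤ) * (p₀ * f p₀) ≤ X := by exact_mod_cast (g4 p₀ h₀).hi
    have b3 : |t p * A * D| ≤ X := by
      rw [show t p * A * D = D * (p * f p) - D * (p₀ * f p₀) by linear_combination -D * ht p hp,
        abs_le]
      have : (0 : ℤ) ≤ D * (p * f p) := by positivity
      have : (0 : ℤ) ≤ D * (p₀ * f p₀) := by positivity
      omega
    rw [abs_mul, abs_mul, Nat.abs_cast, Nat.abs_cast] at b3
    have b4 : (D : ℤ) ≤ A * a := by
      exact_mod_cast D1.trans (c3 ▸ Nat.mul_le_mul_left _ ga)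
    refine le_of_mul_le_mul_right ?_ (show (0 : ℤ) < D ^ 2 from pow_pos (by omega) _)
    calc |t p| * (D : ℤ) ^ 2 = |t p| * D * D := by ring
      _ ≤ |t p| * (A * a) * D := by gcongr
      _ = a * (|t p| * A * D) := by ring
      _ ≤ a * X := by gcongr
      _ ≤ _ := by exact_mod_cast hT
  · rw [Nat.abs_cast]
    exact_mod_cast (sg_le_sq _).trans (sz p hp (f p) ((dvd_mul_left _ _).mul_left _)).2
  · rw [Nat.abs_cast]
    exact_mod_cast (Nat.le_mul_self _).trans (sz p hp (f p) ((dvd_mul_left _ _).mul_left _)).2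

/-- The degree parameter. -/
def ee (l i : ℕ) : ℕ := 80 * (l / (5 * i) + 1) + 1

/-- The parameters of the class. -/
structure Cnd3 (X l K : ℕ) (R : ℝ) : Prop where
  lX : 2 ^ l ≤ 2 * X
  big : ∀ i, l ≤ 8 * K * (i + 1) → 8 ≤ i ∧ R ^ 150 ≤ 2 ^ (i / 2) ∧
    500 * ee l i * R ^ 117 ≤ 2 ^ (i / (2000000 * ee l i))

/-- The data for a fixed divisor. -/
def Ext (X i D : ℕ) (R : ℝ) (n : ℕ) : Prop :=
  ∃ p f : ℕ, n = D * (p * f) ∧ D.Coprime (p * f) ∧ p.Coprime f ∧ p.Prime ∧ 2 ^ i ≤ p ∧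
    p ≤ 2 * 2 ^ i ∧ (X : ℝ) ≤ 4 * R ^ 118 * (p * D ^ 2) ∧ (2 : ℝ) ^ i ≤ R ^ 114 * D ^ 2

variable {a k X l K i D : ℕ} {W R : ℝ}

theorem D_big (hP : Par a X l W R) (hc : Cnd3 X l K R) (hi : l ≤ 8 * K * (i + 1))
    (h1 : (X : ℝ) ≤ 8 * R ^ 118 * (2 ^ i * D ^ 2)) (h2 : (2 : ℝ) ^ i ≤ R ^ 114 * D ^ 2) :
    2 ^ (i / 8) * (4 * 2 ^ i) ^ (l / (5 * i) + 1 - 1) * a < D := by
  obtain ⟨i8, b1, -⟩ := hc.big i hi
  have hR := hP.R32
  have r1 : (1 : ℝ) ≤ R := by linarith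
  have b2 : 5 * i * (l / (5 * i)) ≤ l := Nat.mul_div_le _ _
  rw [Nat.add_sub_cancel]
  generalize l / (5 * i) = j at b2 ⊢
  have key : (2 : ℝ) ^ (2 * (i / 8) + 2 * ((2 + i) * j) + i / 2) ≤ R ^ 118 * D ^ 2 := by
    rcases Nat.eq_zero_or_pos j with rfl | j1
    · refine (pow_le_pow_right₀ (by norm_num) (by omega)).trans (h2.trans ?_)
      gcongr
      norm_num
    · have c1 : ((2 : ℝ)) ^ l ≤ 2 * X := by exact_mod_cast hc.lX
      refine le_of_mul_le_mul_right ?_ (show (0 : ℝ) < 2 ^ (i + 4) by positivity)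
      calc _ = (2 : ℝ) ^ (2 * (i / 8) + 2 * ((2 + i) * j) + i / 2 + (i + 4)) := (pow_add _ _ _).symm
        _ ≤ 2 ^ l := pow_le_pow_right₀ (by norm_num) (by
            have d1 : 8 * (i / 8) ≤ i := Nat.mul_div_le _ _
            have d2 : 2 * (i / 2) ≤ i := Nat.mul_div_le _ _
            nlinarith [Nat.mul_le_mul_left i j1, Nat.mul_le_mul_left j i8])
        _ ≤ 2 * (8 * R ^ 118 * (2 ^ i * D ^ 2)) := by linarith
        _ = _ := by ring
  refine lt_of_pow_lt_pow_left₀ 2 (Nat.zero_le _) ?_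
  rw [← Nat.cast_lt (α := ℝ)]
  refine lt_of_mul_lt_mul_left ?_ (show 0 ≤ R ^ 118 by positivity)
  have c2 : R ^ 118 * R ^ 2 < R ^ 150 := by
    rw [← pow_add]; exact pow_lt_pow_right₀ (by linarith) (by norm_num)
  have c3 := hP.aR
  push_cast
  calc _ = (2 : ℝ) ^ (2 * (i / 8) + 2 * ((2 + i) * j)) * (R ^ 118 * a ^ 2) := by
        rw [show (4 : ℝ) = 2 ^ 2 by norm_num, ← pow_add 2 2 i, ← pow_mul, pow_add, pow_mul' 2 2,
          pow_mul' 2 2]
        ring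
    _ ≤ 2 ^ (2 * (i / 8) + 2 * ((2 + i) * j)) * (R ^ 118 * R ^ 2) := by gcongr
    _ < 2 ^ (2 * (i / 8) + 2 * ((2 + i) * j)) * 2 ^ (i / 2) := by gcongr; linarith
    _ ≤ _ := by rw [← pow_add]; exact key

/-- The count for a fixed divisor. -/
theorem cardD (hP : Par a X l W R) (hc : Cnd3 X l K R) (hi : l ≤ 8 * K * (i + 1))
    (N : Finset ℕ) (hN : ∀ n ∈ N, Sol a k X n ∧ Ext X i D R n) :
    (N.card : ℝ) ≤ 2 ^ i / R ^ 117 * (3 * a ^ 2) := by
  classical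
  have hR := hP.R32
  have r1 : (1 : ℝ) ≤ R := by linarith
  rcases N.eq_empty_or_nonempty with rfl | ⟨n₀, h₀⟩
  · rw [card_empty, Nat.cast_zero]; positivity
  obtain ⟨i8, b1, b2⟩ := hc.big i hi
  choose! g0 p f g1 g2 g3 g4 g5 g6 g7 g8 using hN
  have b3 : (X : ℝ) ≤ 8 * R ^ 118 * (2 ^ i * D ^ 2) := by
    have : (p n₀ : ℝ) ≤ 2 * 2 ^ i := by exact_mod_cast g6 n₀ h₀
    calc _ ≤ _ := g7 n₀ h₀
      _ ≤ 4 * R ^ 118 * (2 * 2 ^ i * D ^ 2) := by gcongr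
      _ = _ := by ring
  have b4 := fixD (G := N.image p) (k := k) (i := i) (Nat.le_add_left 1 (l / (5 * i))) (e := ee l i)
    rfl rfl (by
      have : ((500 * ee l i : ℕ) : ℝ) ≤ (2 ^ (i / (2000000 * ee l i)) : ℕ) := by
        push_cast
        exact (le_mul_of_one_le_right (by positivity) (one_le_pow₀ r1)).trans b2
      exact_mod_cast this) hP.a1 hP.Xl (by
      have := Nat.lt_mul_div_succ l (show 0 < 5 * i by omega)
      nlinarith) (D_big hP hc hi b3 (g8 n₀ h₀)) (by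
      rw [← Nat.cast_le (α := ℝ)]
      have c1 := hP.aR
      have c2 : R * (8 * R ^ 118) ≤ R ^ 150 := by
        calc _ ≤ R * (R * R ^ 118) := by gcongr; linarith
          _ = R ^ 120 := by ring
          _ ≤ _ := pow_le_pow_right₀ r1 (by norm_num)
      push_cast
      calc (a : ℝ) * X ≤ R * (8 * R ^ 118 * (2 ^ i * D ^ 2)) := by gcongr
        _ = R * (8 * R ^ 118) * (2 ^ i * D ^ 2) := by ring
        _ ≤ 2 ^ (i / 2) * (2 ^ i * D ^ 2) := by gcongr; linarith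
        _ = _ := by ring) fun q hq => by
      obtain ⟨n, hn, rfl⟩ := mem_image.1 hq
      exact ⟨g4 n hn, g5 n hn, g6 n hn, f n, g1 n hn ▸ g0 n hn, g2 n hn, g3 n hn⟩
  have b5 : ((N.image p).card : ℝ) ≤ 2 ^ i / R ^ 117 := by
    have c1 : ((N.image p).card : ℝ) * 2 ^ (i / (2000000 * ee l i)) ≤ 500 * ee l i * 2 ^ i := by
      exact_mod_cast b4
    have c2 : (0 : ℝ) < 500 * ee l i := by unfold ee; positivity
    rw [le_div_iff₀ (by positivity)]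
    refine le_of_mul_le_mul_left (le_trans ?_ c1) c2
    calc _ = ((N.image p).card : ℝ) * (500 * ee l i * R ^ 117) := by ring
      _ ≤ _ := by gcongr
  have X0 : 0 < √(X : ℝ) := lt_of_lt_of_le (by positivity) (sqrt_ge hP.RX)
  rw [card_eq_sum_card_fiberwise (f := p) (t := N.image p) fun n hn => mem_image_of_mem p hn,
    Nat.cast_sum]
  refine (sum_le_card_nsmul _ _ (3 * (a : ℝ) ^ 2) fun q hq => ?_).trans
    (by rw [nsmul_eq_mul]; gcongr)
  obtain ⟨m, hm, rfl⟩ := mem_image.1 hq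
  have c0 : (0 : ℝ) < (D * p m : ℕ) := by
    have := (g1 m hm ▸ g0 m hm).pos
    rw [← mul_assoc] at this
    exact_mod_cast Nat.pos_of_mul_pos_right this
  refine (Farey.one (k := k) (X := X) (D := D * p m) (ρ := (D * p m : ℕ) / √X) p_Farey hP.a1
    (by positivity) fun n hn => ?_).trans (le_of_eq (by field_simp))
  obtain ⟨c1, c2⟩ := mem_filter.1 hn
  refine ⟨g0 n c1, ⟨f n, by rw [← c2, mul_assoc]; exact g1 n c1, ?_⟩, ?_, le_of_eq (by field_simp)⟩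
  · rw [← c2]
    exact Nat.Coprime.mul_left (Nat.Coprime.coprime_mul_left_right (g2 n c1)) (g3 n c1)
  · rw [div_mul_eq_mul_div, le_div_iff₀ X0, Real.mul_self_sqrt (Nat.cast_nonneg _)]
    have d1 : (2 : ℝ) ^ (i / 2) ≤ p m := by
      exact_mod_cast (two_le (Nat.div_le_self _ _)).trans (g5 m hm)
    have d2 : 4 * R ^ 118 ≤ R ^ 150 := by
      calc _ ≤ R * R ^ 118 := by gcongr; linarith
        _ = R ^ 119 := by ring
        _ ≤ _ := pow_le_pow_right₀ r1 (by norm_num)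
    push_cast
    calc _ ≤ _ := g7 m hm
      _ ≤ p m * (p m * (D : ℝ) ^ 2) := by gcongr; linarith
      _ = _ := by ring

/-- The class with a large middle prime. -/
def ClW (a k X l K : ℕ) (W R : ℝ) (n : ℕ) : Prop :=
  ∃ i c b u : ℕ, i < l ∧ l ≤ 8 * K * (i + 1) ∧ c ∈ Icc 1 X ∧ b ∈ TQ.Bs a k X W i c ∧ 1 ≤ u ∧
    (u : ℝ) ≤ R ^ 116 * √X / 2 ^ i / c ∧ Ext X i (c * b * u) R n

theorem cardW (hH : S_Harm) (hP : Par a X l W R) (hc : Cnd3 X l K R) (N : Finset ℕ)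
    (hN : ∀ n ∈ N, Sol a k X n ∧ ClW a k X l K W R n) :
    (N.card : ℝ) ≤ 3 * a ^ 2 * √X * (l * (a * (1 + W)) * l / R) := by
  classical
  have hR : (0 : ℝ) < R := by linarith [hP.R32]
  have hW : (0 : ℝ) ≤ W := by linarith [hP.W16]
  obtain ⟨hs, -, -⟩ := hH X l hP.l4 hP.Xl
  have h1 : N ⊆ ((((range l).filter fun i => l ≤ 8 * K * (i + 1)) ×ˢ Icc 1 X).sigma fun x =>
      TQ.Bs a k X W x.1 x.2 ×ˢ Icc 1 ⌊R ^ 116 * √X / 2 ^ x.1 / x.2⌋₊).biUnion
        fun x => N.filter (Ext X x.1.1 (x.1.2 * x.2.1 * x.2.2) R) := fun n hn => by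
    obtain ⟨-, i, c, b, u, c1, c2, c3, c4, c5, c6, c7⟩ := hN n hn
    exact mem_biUnion.2 ⟨⟨(i, c), (b, u)⟩, mem_sigma.2 ⟨mem_product.2 ⟨mem_filter.2
      ⟨mem_range.2 c1, c2⟩, c3⟩, mem_product.2 ⟨c4, mem_Icc.2 ⟨c5, Nat.le_floor c6⟩⟩⟩,
      mem_filter.2 ⟨hn, c7⟩⟩
  refine (Nat.cast_le.2 ((card_le_card h1).trans card_biUnion_le)).trans ?_
  rw [Nat.cast_sum, sum_sigma]
  refine (sum_le_sum (g := fun x => 3 * a ^ 2 * √X * (a * (1 + W)) / R * (1 / x.2 : ℝ))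
    fun x hx => ?_).trans ?_
  · obtain ⟨b1, b2⟩ := mem_product.1 hx
    refine (sum_le_card_nsmul _ _ (2 ^ x.1 / R ^ 117 * (3 * (a : ℝ) ^ 2)) fun y _ =>
      cardD (k := k) hP hc (mem_filter.1 b1).2 _ fun n hn =>
        ⟨(hN n (mem_filter.1 hn).1).1, (mem_filter.1 hn).2⟩).trans ?_
    rw [nsmul_eq_mul, card_product, Nat.card_Icc, Nat.add_sub_cancel, Nat.cast_mul]
    have b3 := TQ.card_Bs (k := k) (X := X) p_Farey hP.a1 hW x.1 (mem_Icc.1 b2).1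
    have b4 := Nat.floor_le (show 0 ≤ R ^ 116 * √X / 2 ^ x.1 / x.2 by positivity)
    calc _ ≤ a * (1 + W) * (R ^ 116 * √X / 2 ^ x.1 / x.2) *
          (2 ^ x.1 / R ^ 117 * (3 * (a : ℝ) ^ 2)) := by gcongr
      _ = _ := by field_simp
  · rw [← mul_sum, sum_product]
    dsimp only
    rw [sum_const, nsmul_eq_mul]
    have b1 : (((range l).filter fun i => l ≤ 8 * K * (i + 1)).card : ℝ) ≤ l := by
      exact_mod_cast (card_filter_le _ _).trans_eq (card_range l)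
    calc _ ≤ 3 * a ^ 2 * √X * (a * (1 + W)) / R * (l * l) := by gcongr
      _ = _ := by ring

end Pool.Agent.P.MP_df609a_nt.Dt
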