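import Mathlib

/-! The box principle and the relation between the two quotients. -/

namespace Pool.Agent.P.MP_df609a_nt.Dt

open Finset Polynomial

theorem dirichlet {ι : Type} [Fintype ι] (x y : ι → ℝ) (M : ι → ℕ) (hM : ∀ i, 1 ≤ M i) (H : ℕ)
    (hH : ∏ i, M i < (H + 1) ^ 2) :
    ∃ α β : ℤ, (α ≠ 0 ∨ β ≠ 0) ∧ |α| ≤ H ∧ |β| ≤ H ∧
      ∀ i, ∃ k : ℤ, |α * x i + β * y i - k| * M i ≤ 1 := by
  classical
  have hc : (Fintype.piFinset fun i => range (M i)).card <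
      (range (H + 1) ×ˢ range (H + 1)).card := by
    simpa [Fintype.card_piFinset, sq] using hH
  obtain ⟨⟨a, b⟩, h1, ⟨c, d⟩, h2, h3, h4⟩ := exists_ne_map_eq_of_card_lt_of_maps_to hc
    (f := fun q i => ⌊Int.fract (q.1 * x i + q.2 * y i) * M i⌋₊) (fun q _ => by
      refine mem_coe.2 (Fintype.mem_piFinset.2 fun i => mem_range.2 ?_)
      have h0 : (0 : ℝ) < M i := by exact_mod_cast hM i
      rw [Nat.floor_lt (mul_nonneg (Int.fract_nonneg _) h0.le)]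
      have := Int.fract_lt_one (q.1 * x i + q.2 * y i)
      nlinarith)
  simp only [mem_product, mem_range] at h1 h2
  refine ⟨a - c, b - d, ?_, by rw [abs_le]; omega, by rw [abs_le]; omega, fun i => ?_⟩
  · by_contra hn
    push Not at hn
    exact h3 (Prod.ext (by simp only; omega) (by simp only; omega))
  refine ⟨⌊a * x i + b * y i⌋ - ⌊c * x i + d * y i⌋, ?_⟩
  have h0 : (0 : ℝ) < M i := by exact_mod_cast hM i
  have e := congrFun h4 i
  simp only at e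
  have f1 := Nat.floor_le (mul_nonneg (Int.fract_nonneg (a * x i + b * y i)) h0.le)
  have f2 := Nat.floor_le (mul_nonneg (Int.fract_nonneg (c * x i + d * y i)) h0.le)
  have f3 := Nat.lt_floor_add_one (Int.fract (a * x i + b * y i) * M i)
  have f4 := Nat.lt_floor_add_one (Int.fract (c * x i + d * y i) * M i)
  rw [e] at f1 f3
  rw [← abs_of_pos h0, ← abs_mul, abs_le]
  unfold Int.fract at f1 f2 f3 f4
  push_cast
  constructor <;> nlinarith

/-- The expansion of a quotient. -/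
theorem expand {y d q S : ℝ} (hy : y ≠ 0) (h : (y + d) * q = S) (n : ℕ) :
    q = ∑ b : Fin n, (-1 / y) ^ (b : ℕ) * (S / y) * d ^ (b : ℕ) + q * (-d / y) ^ n := by
  have h1 := geom_sum_mul_neg (-d / y) n
  have h2 : ∑ b : Fin n, (-1 / y) ^ (b : ℕ) * (S / y) * d ^ (b : ℕ) =
      q * ((∑ b ∈ range n, (-d / y) ^ b) * (1 - -d / y)) := by
    rw [Fin.sum_univ_eq_sum_range (fun b => (-1 / y) ^ b * (S / y) * d ^ b), sum_mul, mul_sum]
    refine sum_congr rfl fun b _ => ?_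
    rw [show -d / y = -1 / y * d by ring, mul_pow, ← h]
    field_simp
    ring
  rw [h2, h1]
  ring

theorem sum_small {n L : ℕ} {d s c : ℝ} (e : Fin n → ℝ) (hL : 1 ≤ L) (h0 : 0 ≤ d) (hd : d ≤ L)
    (hs : |s| ≤ c) (he : ∀ b, |e b| * (4 * n * c * L ^ n) ≤ 1) :
    |s * ∑ b, e b * d ^ (b : ℕ)| ≤ 1 / 4 := by
  rcases Nat.eq_zero_or_pos n with rfl | hn
  · simp
  have n0 : (0 : ℝ) < n := by exact_mod_cast hn
  have L1 : (1 : ℝ) ≤ L := by exact_mod_cast hL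
  rw [mul_sum]
  refine (abs_sum_le_sum_abs _ _).trans ((sum_le_card_nsmul _ _ (1 / (4 * n) : ℝ) fun b _ => ?_).trans
    (le_of_eq ?_))
  · have h1 : d ^ (b : ℕ) ≤ (L : ℝ) ^ n :=
      (pow_le_pow_left₀ h0 hd _).trans (pow_le_pow_right₀ L1 b.2.le)
    rw [abs_mul, abs_mul, abs_of_nonneg (pow_nonneg h0 _), le_div_iff₀ (by positivity)]
    have h2 : 0 ≤ c := (abs_nonneg _).trans hs
    calc |s| * (|e b| * d ^ (b : ℕ)) * (4 * n) ≤ c * (|e b| * (L : ℝ) ^ n) * (4 * n) := by gcongr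
      _ = |e b| * (4 * n * c * L ^ n) := by ring
      _ ≤ 1 := he b
  · rw [card_univ, Fintype.card_fin, nsmul_eq_mul]
    field_simp

theorem rem_small {n L H Z p : ℕ} {d y α v : ℝ} (hp : 1 ≤ p) (hy : (p : ℝ) ≤ y) (h0 : 0 ≤ d)
    (hd : d ≤ L) (hα : |α| ≤ H) (hv : |v| ≤ Z) (h : 8 * H * Z * L ^ n ≤ p ^ n) :
    |α * (v * (-d / y) ^ n)| ≤ 1 / 8 := by
  have p0 : (0 : ℝ) < p := by exact_mod_cast hp
  have h1 : (8 : ℝ) * H * Z * L ^ n ≤ p ^ n := by exact_mod_cast h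
  have h2 : |(-d / y) ^ n| ≤ (L : ℝ) ^ n / p ^ n := by
    rw [abs_pow, abs_div, abs_neg, abs_of_nonneg h0, abs_of_pos (by linarith), ← div_pow]
    have : 0 < y := by linarith
    gcongr
  rw [abs_mul, abs_mul]
  calc |α| * (|v| * |(-d / y) ^ n|) ≤ H * (Z * ((L : ℝ) ^ n / p ^ n)) := by gcongr
    _ = 8 * H * Z * L ^ n / p ^ n / 8 := by ring
    _ ≤ 1 / 8 := by gcongr; exact (div_le_one (by positivity)).2 h1

/-- The two quotients are integers. -/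
structure Good (A B U V : ℤ) (T Z : ℕ) (p t u v : ℤ) : Prop where
  hv : p * v = V + t * A
  hu : (p + 1) * u = U + t * B
  bt : |t| ≤ T
  bu : |u| ≤ Z
  bv : |v| ≤ Z

theorem rel0 (A B U V : ℤ) {y L T Z m : ℕ} (hy : 1 ≤ y) (hL : 1 ≤ L) (hT : 1 ≤ T) (hm : 1 ≤ m)
    (h : 8 * (16 * (2 * m) ^ 2 * T * L ^ (4 * m)) ^ m * Z * L ^ (2 * m) ≤ y ^ (2 * m)) :
    ∃ (α β : ℤ) (k k' : Fin (2 * m) → ℤ), (α ≠ 0 ∨ β ≠ 0) ∧
      ∀ p t u v : ℤ, (y : ℤ) ≤ p → p ≤ y + L → Good A B U V T Z p t u v →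
        α * v + β * u = ∑ b, k b * (p - y) ^ (b : ℕ) + t * ∑ b, k' b * (p - y) ^ (b : ℕ) := by
  obtain ⟨α, β, h1, h2, h3, h4⟩ := dirichlet (ι := Fin (2 * m) ⊕ Fin (2 * m))
    (Sum.elim (fun b => (-1 / y) ^ (b : ℕ) * (V / y)) fun b => (-1 / y) ^ (b : ℕ) * (A / y))
    (Sum.elim (fun b => (-1 / (y + 1)) ^ (b : ℕ) * (U / (y + 1)))
      fun b => (-1 / (y + 1)) ^ (b : ℕ) * (B / (y + 1)))
    (Sum.elim (fun _ => 4 * (2 * m) * 1 * L ^ (2 * m)) fun _ => 4 * (2 * m) * T * L ^ (2 * m))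
    (by rintro (b | b) <;> exact Nat.pos_of_ne_zero (by simp only [Sum.elim_inl, Sum.elim_inr]; positivity))
    ((16 * (2 * m) ^ 2 * T * L ^ (4 * m)) ^ m) (by
      rw [Fintype.prod_sum_type]
      simp only [Sum.elim_inl, Sum.elim_inr, prod_const, card_univ, Fintype.card_fin]
      refine lt_of_le_of_lt (le_of_eq ?_) (Nat.pow_lt_pow_left (Nat.lt_succ_self _) two_ne_zero)
      rw [← mul_pow, ← pow_mul, mul_comm m 2]
      congr 1
      ring)
  choose k hk using h4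
  refine ⟨α, β, fun b => k (Sum.inl b), fun b => k (Sum.inr b), h1, fun p t u v a1 a2 g => ?_⟩
  have y0 : (0 : ℝ) < y := by exact_mod_cast hy
  have d0 : (0 : ℝ) ≤ (p : ℝ) - y := by rw [sub_nonneg]; exact_mod_cast a1
  have d1 : (p : ℝ) - y ≤ L := by rw [sub_le_iff_le_add']; exact_mod_cast a2
  have e1 := expand (y := y) (d := p - y) (q := v) (S := V + t * A) y0.ne'
    (by rw [add_sub_cancel]; exact_mod_cast g.hv) (2 * m)
  have e2 := expand (y := y + 1) (d := p - y) (q := u) (S := U + t * B) (by linarith)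
    (by rw [show (y : ℝ) + 1 + (p - y) = p + 1 by ring]; exact_mod_cast g.hu) (2 * m)
  have b1 := sum_small (n := 2 * m) (s := 1) (c := 1) (fun b => α * ((-1 / y) ^ (b : ℕ) * (V / y)) +
      β * ((-1 / (y + 1)) ^ (b : ℕ) * (U / (y + 1))) - k (Sum.inl b)) hL d0 d1 (by simp) fun b => by
    simpa only [Sum.elim_inl, Nat.cast_mul, Nat.cast_pow, Nat.cast_one, Nat.cast_ofNat]
      using hk (Sum.inl b)
  have b2 := sum_small (n := 2 * m) (s := t) (c := T) (fun b => α * ((-1 / y) ^ (b : ℕ) * (A / y)) +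
      β * ((-1 / (y + 1)) ^ (b : ℕ) * (B / (y + 1))) - k (Sum.inr b)) hL d0 d1
      (by exact_mod_cast g.bt) fun b => by
    simpa only [Sum.elim_inr, Nat.cast_mul, Nat.cast_pow, Nat.cast_ofNat] using hk (Sum.inr b)
  have b3 := rem_small (y := y) (α := α) (v := v) hy le_rfl d0 d1 (by exact_mod_cast h2)
    (by exact_mod_cast g.bv) h
  have b4 := rem_small (y := y + 1) (α := β) (v := u) hy (by linarith) d0 d1
    (by exact_mod_cast h3) (by exact_mod_cast g.bu) h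
  rw [← sub_eq_zero, ← Int.abs_lt_one_iff, ← Int.cast_lt (R := ℝ)]
  push_cast
  generalize (-((p : ℝ) - y) / y) ^ (2 * m) = r1 at e1 b3
  generalize (-((p : ℝ) - y) / (y + 1)) ^ (2 * m) = r2 at e2 b4
  have key : (α : ℝ) * v + β * u - (∑ b, (k (Sum.inl b) : ℝ) * ((p : ℝ) - y) ^ (b : ℕ) +
      t * ∑ b, (k (Sum.inr b) : ℝ) * ((p : ℝ) - y) ^ (b : ℕ)) =
      1 * ∑ b : Fin (2 * m), (α * ((-1 / y) ^ (b : ℕ) * (V / y)) +
        β * ((-1 / (y + 1)) ^ (b : ℕ) * (U / (y + 1))) - k (Sum.inl b)) * ((p : ℝ) - y) ^ (b : ℕ) +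
      t * ∑ b : Fin (2 * m), (α * ((-1 / y) ^ (b : ℕ) * (A / y)) +
        β * ((-1 / (y + 1)) ^ (b : ℕ) * (B / (y + 1))) - k (Sum.inr b)) * ((p : ℝ) - y) ^ (b : ℕ) +
      α * (v * r1) + β * (u * r2) := by
    have f1 : (α : ℝ) * (v * r1) = α * v - α * ∑ b : Fin (2 * m),
        (-1 / (y : ℝ)) ^ (b : ℕ) * ((V + t * A) / y) * ((p : ℝ) - y) ^ (b : ℕ) := by
      linear_combination (-α : ℝ) * e1
    have f2 : (β : ℝ) * (u * r2) = β * u - β * ∑ b : Fin (2 * m),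
        (-1 / ((y : ℝ) + 1)) ^ (b : ℕ) * ((U + t * B) / (y + 1)) * ((p : ℝ) - y) ^ (b : ℕ) := by
      linear_combination (-β : ℝ) * e2
    rw [f1, f2]
    simp only [mul_sum]
    have z : ∑ b : Fin (2 * m), (1 * ((α * ((-1 / y) ^ (b : ℕ) * (V / y)) +
        β * ((-1 / (y + 1)) ^ (b : ℕ) * (U / (y + 1))) - k (Sum.inl b)) * ((p : ℝ) - y) ^ (b : ℕ)) +
        t * ((α * ((-1 / y) ^ (b : ℕ) * (A / y)) +
        β * ((-1 / (y + 1)) ^ (b : ℕ) * (B / (y + 1))) - k (Sum.inr b)) * ((p : ℝ) - y) ^ (b : ℕ)) -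
        α * ((-1 / (y : ℝ)) ^ (b : ℕ) * ((V + t * A) / y) * ((p : ℝ) - y) ^ (b : ℕ)) -
        β * ((-1 / ((y : ℝ) + 1)) ^ (b : ℕ) * ((U + t * B) / (y + 1)) * ((p : ℝ) - y) ^ (b : ℕ)) +
        (k (Sum.inl b) : ℝ) * ((p : ℝ) - y) ^ (b : ℕ) +
        t * ((k (Sum.inr b) : ℝ) * ((p : ℝ) - y) ^ (b : ℕ))) = 0 :=
      sum_eq_zero fun b _ => by ring
    simp only [sum_add_distrib, sum_sub_distrib] at z
    linarith
  rw [key, abs_lt]
  rw [abs_le] at b1 b2 b3 b4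
  constructor <;> linarith [b1.1, b1.2, b2.1, b2.2, b3.1, b3.2, b4.1, b4.2]

theorem deg_sum {n : ℕ} (k : Fin n → ℤ) (y : ℂ) :
    (∑ b, C (k b : ℂ) * (X - C y) ^ (b : ℕ)).natDegree ≤ n - 1 :=
  natDegree_sum_le_of_forall_le _ _ fun b _ => (natDegree_C_mul_le _ _).trans
    (natDegree_pow_le.trans (by have := b.2; rw [natDegree_X_sub_C]; omega))

/-- In a short interval the parameter is a rational function of the prime. -/
theorem rel {A B : ℤ} (U V : ℤ) {y L T Z m : ℕ} (hA : A ≠ 0) (hB : B ≠ 0) (hy : 1 ≤ y) (hL : 1 ≤ L)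
    (hT : 1 ≤ T) (hm : 1 ≤ m)
    (h : 8 * (16 * (2 * m) ^ 2 * T * L ^ (4 * m)) ^ m * Z * L ^ (2 * m) ≤ y ^ (2 * m)) :
    ∃ G F : ℂ[X], G ≠ 0 ∧ G.natDegree ≤ 2 * m + 1 ∧ F.natDegree ≤ 2 * m + 1 ∧
      ∀ p t u v : ℤ, (y : ℤ) ≤ p → p ≤ y + L → Good A B U V T Z p t u v →
        t * G.eval (p : ℂ) = F.eval (p : ℂ) := by
  obtain ⟨α, β, k, k', h1, h2⟩ := rel0 A B U V hy hL hT hm h
  have d1 := deg_sum k y
  have d2 := deg_sum k' y
  generalize hR : (∑ b, C (k b : ℂ) * (X - C (y : ℂ)) ^ (b : ℕ)) = R at d1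
  generalize hR' : (∑ b, C (k' b : ℂ) * (X - C (y : ℂ)) ^ (b : ℕ)) = R' at d2
  have dg : ∀ (S : ℂ[X]) (a b : ℂ), S.natDegree ≤ 2 * m - 1 →
      (X * (X + 1) * S - C a * (X + 1) - C b * X).natDegree ≤ 2 * m + 1 := fun S a b hS => by
    have e1 : (X + 1 : ℂ[X]).natDegree ≤ 1 := by compute_degree
    have e2 : (X * (X + 1) : ℂ[X]).natDegree ≤ 2 := by compute_degree
    refine (natDegree_sub_le _ _).trans (max_le ((natDegree_sub_le _ _).trans (max_le ?_ ?_)) ?_)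
    · exact natDegree_mul_le.trans (by omega)
    · exact (natDegree_C_mul_le _ _).trans (by omega)
    · exact (natDegree_C_mul_le _ _).trans (by rw [natDegree_X]; omega)
  refine ⟨X * (X + 1) * R' - C (α * A : ℂ) * (X + 1) - C (β * B : ℂ) * X,
    -(X * (X + 1) * R - C (α * V : ℂ) * (X + 1) - C (β * U : ℂ) * X), fun h0 => ?_, dg _ _ _ d2,
    by rw [natDegree_neg]; exact dg _ _ _ d1, fun p t u v a1 a2 g => ?_⟩
  · have z1 := congrArg (eval 0) h0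
    have z2 := congrArg (eval (-1)) h0
    simp [hA, hB] at z1 z2
    tauto
  · have e : (α : ℂ) * v + β * u = R.eval (p : ℂ) + t * R'.eval (p : ℂ) := by
      rw [← hR, ← hR']
      simp only [eval_finsetSum, eval_mul, eval_C, eval_pow, eval_sub, eval_X]
      exact_mod_cast h2 p t u v a1 a2 g
    have e1 : (p : ℂ) * v = V + t * A := by exact_mod_cast g.hv
    have e2 : ((p : ℂ) + 1) * u = U + t * B := by exact_mod_cast g.hu
    simp only [eval_neg, eval_sub, eval_mul, eval_add, eval_C, eval_X, eval_one]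
    linear_combination (-(p : ℂ) * (p + 1)) * e + (α * (p + 1) : ℂ) * e1 + (β * p : ℂ) * e2

end Pool.Agent.P.MP_df609a_nt.Dt
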