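import Pool.Agent.P.MP_df609a_nt.Dt.Dir

/-! The number of good primes in a very short interval. -/

namespace Pool.Agent.P.MP_df609a_nt.Dt

open Finset Polynomial

theorem dirichlet' {κ n M H : ℕ} (x : Fin κ → Fin n → ℝ) (hM : 1 ≤ M) (hH : M ^ n < (H + 1) ^ κ) :
    ∃ a : Fin κ → ℤ, a ≠ 0 ∧ (∀ i, |a i| ≤ H) ∧
      ∀ b, ∃ k : ℤ, |∑ i, a i * x i b - k| * M ≤ 1 := by
  classical
  have hc : (Fintype.piFinset fun _ : Fin n => range M).card <
      (Fintype.piFinset fun _ : Fin κ => range (H + 1)).card := by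
    simpa [Fintype.card_piFinset] using hH
  have h0 : (0 : ℝ) < M := by exact_mod_cast hM
  obtain ⟨f, h1, g, h2, h3, h4⟩ := exists_ne_map_eq_of_card_lt_of_maps_to hc
    (f := fun q b => ⌊Int.fract (∑ i, q i * x i b) * M⌋₊) (fun q _ => by
      refine mem_coe.2 (Fintype.mem_piFinset.2 fun b => mem_range.2 ?_)
      rw [Nat.floor_lt (mul_nonneg (Int.fract_nonneg _) h0.le)]
      have := Int.fract_lt_one (∑ i, q i * x i b)
      nlinarith)
  simp only [Fintype.mem_piFinset, mem_range] at h1 h2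
  refine ⟨fun i => f i - g i, fun h => h3 (funext fun i => ?_), fun i => ?_, fun b => ?_⟩
  · have := congrFun h i
    simp only [Pi.zero_apply] at this
    omega
  · have := h1 i
    have := h2 i
    simp only [abs_le]
    omega
  refine ⟨⌊∑ i, f i * x i b⌋ - ⌊∑ i, g i * x i b⌋, ?_⟩
  have e := congrFun h4 b
  have f1 := Nat.floor_le (mul_nonneg (Int.fract_nonneg (∑ i, f i * x i b)) h0.le)
  have f2 := Nat.floor_le (mul_nonneg (Int.fract_nonneg (∑ i, g i * x i b)) h0.le)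
  have f3 := Nat.lt_floor_add_one (Int.fract (∑ i, f i * x i b) * M)
  have f4 := Nat.lt_floor_add_one (Int.fract (∑ i, g i * x i b) * M)
  rw [e] at f1 f3
  rw [← abs_of_pos h0, ← abs_mul, abs_le]
  unfold Int.fract at f1 f2 f3 f4
  push_cast
  simp only [sub_mul, sum_sub_distrib] at *
  constructor <;> linarith

theorem val_le {κ H w : ℕ} {a : Fin κ → ℤ} {d : ℤ} (hw : 1 ≤ w) (ha : ∀ i, |a i| ≤ H)
    (hd : |d| ≤ w) : |∑ i, a i * d ^ (i : ℕ)| ≤ κ * H * w ^ κ := by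
  refine (abs_sum_le_sum_abs _ _).trans ((sum_le_card_nsmul _ _ ((H : ℤ) * w ^ κ) fun i _ => ?_).trans
    (by simp [mul_assoc]))
  rw [abs_mul, abs_pow]
  gcongr
  · exact ha i
  · exact (pow_le_pow_left₀ (abs_nonneg _) hd _).trans
      (pow_le_pow_right₀ (by exact_mod_cast hw) i.2.le)

/-- A relation with a small denominator. -/
theorem rel2 {ψ : ℂ[X]} {κ n H w : ℕ} {ε : ℝ} (y : ℕ) (hψ : ψ.natDegree + κ ≤ n) (hκ : 1 ≤ κ)
    (hw : 1 ≤ w) (hH : (4 * n * w ^ n) ^ n < (H + 1) ^ κ) (hε : ε * (2 * (κ * H * w ^ κ)) < 1) :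
    ∃ (a : Fin κ → ℤ) (k : Fin n → ℤ), a ≠ 0 ∧ (∀ i, |a i| ≤ H) ∧
      ∀ p t : ℤ, (y : ℤ) ≤ p → p ≤ y + w → ‖t - ψ.eval (p : ℂ)‖ ≤ ε →
        (∑ i, a i * (p - y) ^ (i : ℕ)) * t = ∑ b, k b * (p - y) ^ (b : ℕ) := by
  have n1 : 1 ≤ n := by omega
  obtain ⟨a, h1, h2, h3⟩ := dirichlet' (κ := κ) (n := n) (M := 4 * n * w ^ n) (H := H)
    (fun i b => ((X ^ (i : ℕ) * ψ.comp (X + C (y : ℂ))).coeff b).re)
    (Nat.pos_of_ne_zero (by positivity)) hH
  choose k hk using h3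
  refine ⟨a, k, h1, h2, fun p t a1 a2 a3 => ?_⟩
  have d0 : (0 : ℝ) ≤ (p : ℝ) - y := by rw [sub_nonneg]; exact_mod_cast a1
  have d1 : (p : ℝ) - y ≤ w := by rw [sub_le_iff_le_add']; exact_mod_cast a2
  have b1 := sum_small (n := n) (s := 1) (c := 1) (fun b => ∑ i, (a i : ℝ) *
    ((X ^ (i : ℕ) * ψ.comp (X + C (y : ℂ))).coeff b).re - k b) hw d0 d1 (by simp) fun b => by
      simpa only [Nat.cast_mul, Nat.cast_pow, Nat.cast_ofNat, mul_one] using hk b
  have b2 : |∑ i, (a i : ℝ) * ((p : ℝ) - y) ^ (i : ℕ)| ≤ κ * H * w ^ κ := by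
    exact_mod_cast val_le (d := p - y) hw h2 (by rw [abs_le]; omega)
  have b3 : |t - (ψ.eval (p : ℂ)).re| ≤ ε := by
    simpa using (Complex.abs_re_le_norm (t - ψ.eval (p : ℂ))).trans a3
  have b4 : ∀ i : Fin κ, ((p : ℝ) - y) ^ (i : ℕ) * (ψ.eval (p : ℂ)).re =
      ∑ b : Fin n, ((X ^ (i : ℕ) * ψ.comp (X + C (y : ℂ))).coeff b).re * ((p : ℝ) - y) ^ (b : ℕ) :=
    fun i => by
      have c1 : (X ^ (i : ℕ) * ψ.comp (X + C (y : ℂ))).natDegree < n :=
        natDegree_mul_le.trans_lt (by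
          have := i.2
          have := natDegree_comp_le (p := ψ) (q := X + C (y : ℂ))
          rw [natDegree_X_add_C] at this
          rw [natDegree_X_pow]
          omega)
      have c2 := eval_eq_sum_range' c1 ((((p : ℝ) - y : ℝ)) : ℂ)
      rw [sum_range, eval_mul, eval_pow, eval_X, eval_comp, eval_add, eval_X, eval_C,
        show (((p : ℝ) - y : ℝ) : ℂ) + y = p by push_cast; ring] at c2
      have c3 := congrArg Complex.re c2
      simpa only [← Complex.ofReal_pow, Complex.re_ofReal_mul, Complex.re_sum,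
        Complex.re_mul_ofReal] using c3
  rw [← sub_eq_zero, ← Int.abs_lt_one_iff, ← Int.cast_lt (R := ℝ)]
  push_cast
  have key : (∑ i, (a i : ℝ) * ((p : ℝ) - y) ^ (i : ℕ)) * t -
      ∑ b, (k b : ℝ) * ((p : ℝ) - y) ^ (b : ℕ) =
      (∑ i, (a i : ℝ) * ((p : ℝ) - y) ^ (i : ℕ)) * (t - (ψ.eval (p : ℂ)).re) +
      1 * ∑ b : Fin n, (∑ i, (a i : ℝ) * ((X ^ (i : ℕ) * ψ.comp (X + C (y : ℂ))).coeff b).re - k b) *
        ((p : ℝ) - y) ^ (b : ℕ) := by
    have c1 : (∑ i, (a i : ℝ) * ((p : ℝ) - y) ^ (i : ℕ)) * (ψ.eval (p : ℂ)).re =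
        ∑ b : Fin n, (∑ i, (a i : ℝ) * ((X ^ (i : ℕ) * ψ.comp (X + C (y : ℂ))).coeff b).re) *
          ((p : ℝ) - y) ^ (b : ℕ) := by
      simp only [sum_mul, mul_assoc, b4, mul_sum]
      exact sum_comm
    simp only [sub_mul, sum_sub_distrib, mul_sub, c1]
    ring
  rw [key]
  refine (abs_add_le _ _).trans_lt ?_
  rw [abs_mul]
  have c2 : |∑ i, (a i : ℝ) * ((p : ℝ) - y) ^ (i : ℕ)| * |t - (ψ.eval (p : ℂ)).re| ≤
      κ * H * w ^ κ * ε := by gcongr
  linarith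

theorem coeff_pow_le (y i j : ℕ) :
    |((X - C (y : ℤ)) ^ i).coeff j| ≤ ((y : ℤ) + 1) ^ i := by
  induction i generalizing j with
  | zero => rcases j with _ | j <;> simp [coeff_one]
  | succ i ih =>
    rw [pow_succ', sub_mul, coeff_sub, coeff_C_mul, pow_succ']
    refine (abs_sub _ _).trans ?_
    have a1 : |(X * (X - C (y : ℤ)) ^ i).coeff j| ≤ ((y : ℤ) + 1) ^ i := by
      rcases j with _ | j
      · simp only [mul_coeff_zero, coeff_X_zero, zero_mul, abs_zero]; positivity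
      · rw [coeff_X_mul]; exact ih j
    have a2 : |(y : ℤ) * ((X - C (y : ℤ)) ^ i).coeff j| ≤ (y : ℤ) * ((y : ℤ) + 1) ^ i := by
      rw [abs_mul, Nat.abs_cast]; gcongr; exact ih j
    linarith

/-- Removing the common power of the variable. -/
theorem red {A B U V : ℤ} {G : Finset ℕ} {t v : ℕ → ℤ} (hA : 0 < A) (hc : A * U - B * V ≠ 0)
    (hG : ∀ p ∈ G, 1 ≤ p ∧ p * v p = V + t p * A) (d : ℕ) :
    ∀ a R : ℤ[X], a ≠ 0 → a.natDegree ≤ d → (∀ i, |a.coeff i| * |A * U - B * V| < A) →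
      (∀ p ∈ G, a.eval (p : ℤ) * t p = R.eval (p : ℤ)) →
      ∃ (S : ℤ[X]) (c : ℤ), S.natDegree ≤ R.natDegree ∧ |c| ≤ A ∧
        (∀ p ∈ G, |S.eval (p : ℤ)| ≤ |R.eval (p : ℤ)|) ∧ A * S.eval 0 + V * c ≠ 0 ∧
        ∀ p ∈ G, (p : ℤ) ∣ A * S.eval 0 + V * c := by
  induction d using Nat.strong_induction_on with
  | _ d ih =>
  intro a R h1 h2 h3 h4
  have c1 := Int.one_le_abs hc
  by_cases h0 : A * R.eval 0 + V * a.eval 0 = 0
  · have b1 : A ∣ a.eval 0 * (A * U - B * V) :=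
      ⟨a.eval 0 * U + B * R.eval 0, by linear_combination (-B) * h0⟩
    have b2 : a.eval 0 = 0 := by
      have := Int.eq_zero_of_abs_lt_dvd b1 (by rw [abs_mul, ← coeff_zero_eq_eval_zero]; exact h3 0)
      exact (mul_eq_zero.1 this).resolve_right hc
    have b3 : R.eval 0 = 0 := by
      rw [b2, mul_zero, add_zero] at h0
      exact (mul_eq_zero.1 h0).resolve_left hA.ne'
    have e1 : ∀ f : ℤ[X], f.eval 0 = 0 → ∀ x, f.eval x = x * f.divX.eval x := fun f hf x => by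
      conv_lhs => rw [← X_mul_divX_add f, coeff_zero_eq_eval_zero, hf]
      simp
    have b4 : a.divX ≠ 0 := fun h => h1 (by
      rw [← X_mul_divX_add a, coeff_zero_eq_eval_zero, b2, h]; simp)
    have b5 : a.natDegree ≠ 0 := fun h => b4 (by rw [eq_C_of_natDegree_eq_zero h, divX_C])
    obtain ⟨S, c, d1, d2, d3, d4⟩ := ih (d - 1) (by omega) a.divX R.divX b4
      (by rw [natDegree_divX_eq_natDegree_tsub_one]; omega) (fun i => by rw [coeff_divX]; exact h3 _)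
      fun p hp => by
        have p0 : (p : ℤ) ≠ 0 := by have := (hG p hp).1; omega
        refine mul_left_cancel₀ p0 ?_
        rw [← mul_assoc, ← e1 a b2, ← e1 R b3, h4 p hp]
    refine ⟨S, c, d1.trans natDegree_divX_le, d2, fun p hp => (d3 p hp).trans ?_, d4⟩
    rw [e1 R b3, abs_mul, Nat.abs_cast]
    exact le_mul_of_one_le_left (abs_nonneg _) (by exact_mod_cast (hG p hp).1)
  · refine ⟨R, a.eval 0, le_rfl, ?_, fun _ _ => le_rfl, h0, fun p hp => ?_⟩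
    · have := h3 0
      rw [coeff_zero_eq_eval_zero] at this
      nlinarith [abs_nonneg (a.eval 0)]
    · obtain ⟨x, hx⟩ := sub_dvd_eval_sub (p : ℤ) 0 a
      obtain ⟨z, hz⟩ := sub_dvd_eval_sub (p : ℤ) 0 R
      exact ⟨a.eval 0 * v p + A * x * t p - A * z, by
        linear_combination (-a.eval 0) * (hG p hp).2 - A * h4 p hp + A * t p * hx - A * hz⟩

/-- Extrapolation to zero. -/
theorem extra {S : Finset ℕ} {f : ℤ[X]} {Q : ℕ} {β : ℤ} (hf : f.natDegree < S.card) (hQ : 1 ≤ Q)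
    (h : ∀ p ∈ S, p ≤ Q ∧ |f.eval (p : ℤ)| ≤ β) : |f.eval 0| ≤ S.card * (β * Q ^ S.card) := by
  have h1 := Lagrange.eq_interpolate (s := S) (v := fun i : ℕ => (i : ℝ))
    (f := f.map (Int.castRingHom ℝ)) (fun i _ j _ e => Nat.cast_injective e)
    (degree_le_natDegree.trans_lt (by exact_mod_cast natDegree_map_le.trans_lt hf))
  have h2 : ∀ x : ℤ, (f.map (Int.castRingHom ℝ)).eval (x : ℝ) = (f.eval x : ℤ) := fun x =>
    eval_intCast_map (Int.castRingHom ℝ) f x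
  have h3 := h2 0
  rw [h1, Lagrange.interpolate_apply, eval_finsetSum] at h3
  rw [← Int.cast_le (R := ℝ), Int.cast_abs, ← h3]
  refine (abs_sum_le_sum_abs _ _).trans ((sum_le_card_nsmul _ _ ((β : ℝ) * Q ^ S.card)
    fun i hi => ?_).trans (by simp))
  have q1 : (1 : ℝ) ≤ Q := by exact_mod_cast hQ
  have b0 : (0 : ℝ) ≤ β := by exact_mod_cast (abs_nonneg _).trans (h i hi).2
  rw [eval_mul, eval_C, abs_mul]
  gcongr
  · have := h2 i
    rw [Int.cast_natCast] at this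
    rw [this]
    exact_mod_cast (h i hi).2
  · rw [Lagrange.basis, eval_prod, abs_prod]
    refine (prod_le_prod (g := fun _ => (Q : ℝ)) (fun _ _ => abs_nonneg _) fun j hj => ?_).trans ?_
    · have a1 : (1 : ℝ) ≤ |(i : ℝ) - j| := by
        have : (i : ℤ) - j ≠ 0 := sub_ne_zero.2 fun e => (mem_erase.1 hj).1 (by omega)
        exact_mod_cast Int.one_le_abs this
      have a2 : (j : ℝ) ≤ Q := by exact_mod_cast (h j (mem_of_mem_erase hj)).1
      simp only [Lagrange.basisDivisor, eval_mul, eval_C, eval_sub, eval_X, Int.cast_zero, zero_sub,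
        abs_mul, abs_neg, Nat.abs_cast, abs_inv]
      calc _ ≤ 1 * (Q : ℝ) := by gcongr; exact inv_le_one_of_one_le₀ a1
        _ = _ := one_mul _
    · rw [prod_const]
      exact pow_le_pow_right₀ q1 card_erase_le

/-- Few good primes lie close to the graph of a polynomial. -/
theorem short {A B U V : ℤ} {T Z P κ n H w r y : ℕ} {ε : ℝ} {G : Finset ℕ} {t u v : ℕ → ℤ}
    {ψ : ℂ[X]} (hψ : ψ.natDegree + κ ≤ n) (hκ : 1 ≤ κ) (hw : 1 ≤ w) (hP : 2 ≤ P) (hA : 0 < A)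
    (hZ : A ≤ Z) (hc : A * U - B * V ≠ 0)
    (hc' : (κ * H * (4 * P) ^ (κ - 1) : ℕ) * |A * U - B * V| < A)
    (hG : ∀ p ∈ G, p.Prime ∧ P ≤ p ∧ p ≤ 2 * P ∧ Good A B U V T Z p (t p) (u p) (v p))
    (h : ∀ p ∈ G, y ≤ p ∧ p ≤ y + w) (h1 : ∀ i ∈ G, ‖t i - ψ.eval (i : ℂ)‖ ≤ ε)
    (hH : (4 * n * w ^ n) ^ n < (H + 1) ^ κ) (hε : ε * (2 * (κ * H * w ^ κ)) < 1) (hr : n ≤ r)
    (hs : Z * (n * (κ * H * w ^ κ * T * (2 * P) ^ n) + (2 * P + T) * Z) ≤ P ^ r) : G.card ≤ r := by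
  by_cases hν : G.card ≤ n
  · omega
  obtain ⟨S, hS, hn⟩ := exists_subset_card_eq (not_le.1 hν).le
  obtain ⟨p, hp⟩ := card_pos.1 (show 0 < G.card by omega)
  have hy : y + 1 ≤ 4 * P := by have := h p hp; have := hG p hp; omega
  obtain ⟨a, k, a1, a2, a3⟩ := rel2 y hψ hκ hw hH hε
  have ev : ∀ {m : ℕ} (c : Fin m → ℤ) (x : ℤ),
      (∑ i, C (c i) * (X - C (y : ℤ)) ^ (i : ℕ)).eval x = ∑ i, c i * (x - y) ^ (i : ℕ) := fun c x => by
    simp only [eval_finsetSum, eval_mul, eval_C, eval_pow, eval_sub, eval_X]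
  have b1 : ∀ p ∈ G, (∑ i, a i * ((p : ℤ) - y) ^ (i : ℕ)) * t p = ∑ b, k b * ((p : ℤ) - y) ^ (b : ℕ) :=
    fun p hp => a3 p (t p) (by exact_mod_cast (h p hp).1) (by exact_mod_cast (h p hp).2)
      (by rw [Int.cast_natCast]; exact h1 p hp)
  obtain ⟨F, c, d1, d2, d3, d4, d5⟩ := red (G := G) (t := t) (v := v) hA hc
    (fun p hp => ⟨(hG p hp).1.pos, (hG p hp).2.2.2.hv⟩) _
    (∑ i, C (a i) * (X - C (y : ℤ)) ^ (i : ℕ)) (∑ i, C (k i) * (X - C (y : ℤ)) ^ (i : ℕ))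
    (fun h0 => a1 (funext fun i => by
      have e := congrArg (fun f : ℤ[X] => (f.comp (X + C (y : ℤ))).coeff i) h0
      simpa [Polynomial.sum_comp, coeff_X_pow, Fin.val_inj] using e)) le_rfl
    (fun j => lt_of_le_of_lt (by
      gcongr
      rw [finsetSum_coeff]
      refine (abs_sum_le_sum_abs _ _).trans ((sum_le_card_nsmul _ _
        ((H : ℤ) * (4 * P) ^ (κ - 1)) fun i _ => ?_).trans (by simp [mul_assoc]))
      rw [coeff_C_mul, abs_mul]
      gcongr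
      · exact a2 i
      · refine (coeff_pow_le y i j).trans ((pow_le_pow_left₀ (by positivity)
          (by exact_mod_cast hy) _).trans (pow_le_pow_right₀ (by omega) (by have := i.2; omega)))) hc')
    fun p hp => by rw [ev, ev, b1 p hp]
  have e1 : (∑ i, C (k i) * (X - C (y : ℤ)) ^ (i : ℕ)).natDegree ≤ n - 1 :=
    natDegree_sum_le_of_forall_le _ _ fun b _ => (natDegree_C_mul_le _ _).trans
      (natDegree_pow_le.trans (by have := b.2; rw [natDegree_X_sub_C]; omega))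
  have e2 := extra (S := S) (f := F) (Q := 2 * P) (β := κ * H * w ^ κ * T) (by omega) (by omega)
    fun q hq => ⟨(hG q (hS hq)).2.2.1, (d3 q (hS hq)).trans (by
      rw [ev, ← b1 q (hS hq), abs_mul]
      gcongr
      · have := h q (hS hq)
        exact val_le hw a2 (by rw [abs_le]; omega)
      · exact (hG q (hS hq)).2.2.2.bt)⟩
  have a3 : ∏ p ∈ G, p ∣ (A * F.eval 0 + V * c).natAbs :=
    prod_primes_dvd _ (fun p hp => (hG p hp).1.prime) fun p hp => Int.natCast_dvd.1 (d5 p hp)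
  have a4 : P ^ G.card ≤ (A * F.eval 0 + V * c).natAbs :=
    (pow_card_le_prod G (fun p => p) P fun p hp => (hG p hp).2.1).trans
      (Nat.le_of_dvd (Int.natAbs_pos.2 d4) a3)
  obtain ⟨-, -, c1, c2⟩ := hG p hp
  have a5 : |V| ≤ Z * (2 * P + T) := by
    have e : V = p * v p - t p * A := by linear_combination -c2.hv
    have c3 : (p : ℤ) ≤ 2 * P := by exact_mod_cast c1
    rw [e]
    refine (abs_sub _ _).trans ?_
    rw [abs_mul, abs_mul, Nat.abs_cast, abs_of_pos hA]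
    calc _ ≤ 2 * (P : ℤ) * Z + T * Z := by gcongr; exacts [c2.bv, c2.bt]
      _ = _ := by ring
  rw [hn] at e2
  have a7 : ((P ^ G.card : ℕ) : ℤ) ≤ (P ^ r : ℕ) := by
    calc ((P ^ G.card : ℕ) : ℤ) ≤ |A * F.eval 0 + V * c| := by
          rw [← Int.natCast_natAbs]; exact_mod_cast a4
      _ ≤ |A| * |F.eval 0| + |V| * |c| := by
          rw [← abs_mul, ← abs_mul]; exact abs_add_le _ _
      _ ≤ Z * (n * (κ * H * w ^ κ * T * ((2 * P : ℕ) : ℤ) ^ n)) + Z * (2 * P + T) * Z := by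
          rw [abs_of_pos hA]
          gcongr
          exact d2.trans hZ
      _ = ((Z * (n * (κ * H * w ^ κ * T * (2 * P) ^ n) + (2 * P + T) * Z) : ℕ) : ℤ) := by
          push_cast; ring
      _ ≤ _ := by exact_mod_cast hs
  exact (Nat.pow_le_pow_iff_right hP).1 (by exact_mod_cast a7)

end Pool.Agent.P.MP_df609a_nt.Dt
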