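import Pool.Agent.P.MP_df609a_nt.Dt.Ser
import Pool.Agent.P.MP_df609a_nt.Dt.Lag

/-! The number of good primes in a dyadic range. -/

namespace Pool.Agent.P.MP_df609a_nt.Dt

open Finset Polynomial

theorem blocks {G : Finset ℕ} {y L w r : ℕ} (hw : 1 ≤ w) (hG : ∀ p ∈ G, y ≤ p ∧ p ≤ y + L)
    (h : ∀ y', y ≤ y' → ∀ G' ⊆ G, (∀ p ∈ G', y' ≤ p ∧ p ≤ y' + w) → G'.card ≤ r) :
    G.card ≤ r * (L / w + 1) := by
  have := card_le_mul_card_image_of_maps_to (s := G) (t := range (L / w + 1))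
    (f := fun p => (p - y) / w) (fun p hp => mem_range.2 (Nat.lt_succ_of_le
      (Nat.div_le_div_right (by have := hG p hp; omega)))) r fun q _ =>
      h (y + w * q) (Nat.le_add_right _ _) _ (filter_subset _ _) fun p hp => by
        obtain ⟨h1, h2⟩ := mem_filter.1 hp
        have h3 := Nat.div_add_mod (p - y) w
        have h4 := Nat.mod_lt (p - y) hw
        have h5 := hG p h1
        rw [h2] at h3
        omega
  rwa [card_range] at this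

theorem near_card {G : Finset ℕ} {Λ : ℕ} (z : ℂ) (h : ∀ p ∈ G, ‖(p : ℂ) - z‖ < Λ) :
    G.card ≤ 2 * Λ + 1 := by
  rcases G.eq_empty_or_nonempty with rfl | hG
  · simp
  have h1 : G ⊆ Icc (G.min' hG) (G.min' hG + 2 * Λ) := fun p hp => by
    refine mem_Icc.2 ⟨min'_le _ _ hp, ?_⟩
    have a1 := norm_sub_le_norm_sub_add_norm_sub (p : ℂ) z (G.min' hG : ℕ)
    have a2 := h _ (min'_mem G hG)
    rw [norm_sub_rev] at a2
    have a3 : ‖(p : ℂ) - (G.min' hG : ℕ)‖ = |(p : ℝ) - (G.min' hG : ℕ)| := by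
      rw [← Real.norm_eq_abs, ← Complex.norm_real]; push_cast; rfl
    have a4 : (p : ℝ) ≤ (G.min' hG : ℕ) + 2 * Λ := by
      linarith [h p hp, le_abs_self ((p : ℝ) - (G.min' hG : ℕ))]
    exact_mod_cast a4
  have := card_le_card h1
  rw [Nat.card_Icc] at this
  omega

/-- The numerical conditions. -/
structure Num (P T Z L Λ w m N r κ n H : ℕ) : Prop where
  P2 : 2 ≤ P
  T1 : 1 ≤ T
  L1 : 1 ≤ L
  w1 : 1 ≤ w
  m1 : 1 ≤ m
  k1 : 1 ≤ κ
  c1 : 8 * (16 * (2 * m) ^ 2 * T * L ^ (4 * m)) ^ m * Z * L ^ (2 * m) ≤ P ^ (2 * m)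
  c2 : (2 * m + 1) * w ≤ Λ
  c3 : T * (2 * m + 2) * (2 * (2 * m + 1) * w) ^ N * (2 * (κ * H * w ^ κ)) < Λ ^ N
  c4 : n ≤ r
  c5 : Z * (n * (κ * H * w ^ κ * T * (2 * P) ^ n) + (2 * P + T) * Z) ≤ P ^ r
  c6 : N + (2 * m + 1) + κ ≤ n
  c7 : (4 * n * w ^ n) ^ n < (H + 1) ^ κ

variable {A B U V : ℤ} {P T Z L Λ w m N r κ n H : ℕ} {G : Finset ℕ} {t u v : ℕ → ℤ}

theorem mid (hn : Num P T Z L Λ w m N r κ n H) (hA : 0 < A) (hB : B ≠ 0) (hZ : A ≤ Z)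
    (hc : A * U - B * V ≠ 0) (hc' : (κ * H * (4 * P) ^ (κ - 1) : ℕ) * |A * U - B * V| < A)
    (hG : ∀ p ∈ G, p.Prime ∧ P ≤ p ∧ p ≤ 2 * P ∧ Good A B U V T Z p (t p) (u p) (v p))
    {y : ℕ} (hy : P ≤ y) (h : ∀ p ∈ G, y ≤ p ∧ p ≤ y + L) :
    G.card ≤ (2 * m + 1) * (2 * Λ + 1) + r * (L / w + 1) := by
  classical
  obtain ⟨D, F, a1, a2, a3, a4⟩ := rel U V hA.ne' hB (le_trans (by have := hn.P2; omega) hy)
    hn.L1 hn.T1 hn.m1 (hn.c1.trans (Nat.pow_le_pow_left hy _))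
  have hΛ : (0 : ℝ) < Λ := by
    have := hn.c2
    have := hn.w1
    exact_mod_cast (by nlinarith : 0 < Λ)
  rw [← card_filter_add_card_filter_not (s := G) fun p => ∃ z ∈ D.roots, ‖(p : ℂ) - z‖ < Λ]
  refine Nat.add_le_add ?_ (blocks (y := y) hn.w1 (fun p hp => h p (mem_filter.1 hp).1)
    fun y' _ G' b1 b2 => ?_)
  · have b1 : (G.filter fun p : ℕ => ∃ z ∈ D.roots, ‖(p : ℂ) - z‖ < Λ) ⊆
        D.roots.toFinset.biUnion fun z => G.filter fun p : ℕ => ‖(p : ℂ) - z‖ < Λ := fun p hp => by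
      obtain ⟨c1, z, c2, c3⟩ := mem_filter.1 hp
      exact mem_biUnion.2 ⟨z, Multiset.mem_toFinset.2 c2, mem_filter.2 ⟨c1, c3⟩⟩
    refine (card_le_card b1).trans ((card_biUnion_le_card_mul _ _ _ fun z _ =>
      near_card z fun p hp => (mem_filter.1 hp).2).trans (Nat.mul_le_mul_right _ ?_))
    exact (Multiset.toFinset_card_le _).trans ((card_roots' D).trans a2)
  rcases G'.eq_empty_or_nonempty with rfl | ⟨x, hx⟩
  · simp
  have b3 : ∀ i ∈ G', ∀ j ∈ G', |(i : ℤ) - j| ≤ w := fun i hi j hj => by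
    have := b2 i hi
    have := b2 j hj
    rw [abs_le]
    omega
  obtain ⟨ψ, c1, c2⟩ := approx a1 N a2 a3 (y := x) (w := w) hΛ
    (fun z hz => not_lt.1 fun hh => (mem_filter.1 (b1 hx)).2 ⟨z, hz, hh⟩)
    (by exact_mod_cast hn.c2)
  refine short (ε := T * ((((2 * m + 1 : ℕ) : ℝ) + 1) * (2 * ((2 * m + 1 : ℕ) / Λ * w)) ^ N))
    ((Nat.add_le_add_right c1 _).trans hn.c6) hn.k1 hn.w1 hn.P2 hA hZ hc hc'
    (fun p hp => hG p (mem_filter.1 (b1 hp)).1) b2 (fun i hi => ?_) hn.c7 ?_ hn.c4 hn.c5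
  · have d1 := (mem_filter.1 (b1 hi)).1
    have d2 := a4 i _ _ _ (by exact_mod_cast (h i d1).1) (by exact_mod_cast (h i d1).2)
      (hG i d1).2.2.2
    rw [Int.cast_natCast] at d2
    refine (c2 i (t i) ?_ d2).trans ?_
    · have d3 : (i : ℂ) - x = (((i : ℤ) - x : ℤ) : ℂ) := by push_cast; rfl
      rw [d3, Complex.norm_intCast]
      exact_mod_cast b3 i hi x hx
    · gcongr
      rw [Complex.norm_intCast]
      exact_mod_cast (hG i d1).2.2.2.bt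
  · have d1 : ((T * (2 * m + 2) * (2 * (2 * m + 1) * w) ^ N * (2 * (κ * H * w ^ κ)) : ℕ) : ℝ) <
        Λ ^ N := by exact_mod_cast hn.c3
    rw [← div_lt_one (by positivity)] at d1
    refine lt_of_le_of_lt (le_of_eq ?_) d1
    rw [show (2 * (((2 * m + 1 : ℕ) : ℝ) / Λ * w)) = 2 * (2 * m + 1) * w / Λ by push_cast; ring,
      div_pow]
    push_cast
    ring

theorem few (hn : Num P T Z L Λ w m N r κ n H) (hA : 0 < A) (hB : B ≠ 0) (hZ : A ≤ Z)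
    (hc : A * U - B * V ≠ 0) (hc' : (κ * H * (4 * P) ^ (κ - 1) : ℕ) * |A * U - B * V| < A)
    (hG : ∀ p ∈ G, p.Prime ∧ P ≤ p ∧ p ≤ 2 * P ∧ Good A B U V T Z p (t p) (u p) (v p)) :
    G.card ≤ ((2 * m + 1) * (2 * Λ + 1) + r * (L / w + 1)) * (P / L + 1) :=
  blocks (y := P) hn.L1 (fun p hp => by have := hG p hp; omega) fun _ hy _ h1 h2 =>
    mid hn hA hB hZ hc hc' (fun p hp => hG p (h1 hp)) hy h2

end Pool.Agent.P.MP_df609a_nt.Dt
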