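import Pool.Agent.P.MP_df609a_nt.Dt.Str
import Pool.Agent.P.MP_df609a_nt.Ct.All

/-! Parameters, summation and the counting theorem. -/

namespace Pool.Agent.P.MP_df609a_nt.Dt

open Finset Filter Real Ct

/-- The total bound, divided by the square root of `X`. -/
noncomputable def Tot3 (a l K : ℕ) (W R : ℝ) : ℝ :=
  (l + 1) * (3 * a ^ 2 * (l * (a * (1 + W)) * l ^ 6 / R + l ^ 4 / R + R ^ 175 * l ^ 3 / 2 ^ K +
    l * (a * (1 + W)) * l / R))

theorem cube {L : ℝ} (h : 0 ≤ L) : (L ^ (1 / 3 : ℝ)) ^ 3 = L := by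
  rw [← rpow_natCast, ← rpow_mul h]; norm_num

theorem cnd3 {X l ρ : ℕ} (lX : 2 ^ l ≤ 2 * X) (h1 : (300000 * ρ) ^ 3 ≤ l) (h2 : 1 ≤ ρ)
    (h3 : 13000000 * ρ ≤ 2 ^ ρ) : Cnd3 X l (176 * ρ) (2 ^ ρ) := by
  refine ⟨lX, fun i hi => ?_⟩
  have r2 : ρ ≤ ρ ^ 2 := Nat.le_self_pow (by norm_num) _
  have a1 : 10000000000000 * ρ ^ 2 ≤ i := by
    have b1 : ρ * (27000000000000000 * ρ ^ 2) ≤ ρ * (1408 * (i + 1)) := by nlinarith
    have b2 := Nat.le_of_mul_le_mul_left b1 h2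
    omega
  have a2 : l / (5 * i) ≤ 317 * ρ := Nat.div_le_of_le_mul (by
    nlinarith [Nat.mul_le_mul_left ρ (show 8 ≤ i by omega)])
  have a3 : ee l i ≤ 25441 * ρ := by unfold ee; omega
  have a4 : 118 * ρ ≤ i / (2000000 * ee l i) :=
    (Nat.le_div_iff_mul_le (by unfold ee; omega)).2 (by nlinarith [Nat.mul_le_mul_left ρ a3])
  refine ⟨by omega, ?_, ?_⟩
  · rw [← pow_mul]
    exact pow_le_pow_right₀ (by norm_num) (by omega)
  · have b1 : (500 * ee l i : ℝ) ≤ 2 ^ ρ := by exact_mod_cast (by omega : 500 * ee l i ≤ 2 ^ ρ)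
    calc _ ≤ (2 : ℝ) ^ ρ * (2 ^ ρ) ^ 117 := by gcongr
      _ = 2 ^ (118 * ρ) := by ring
      _ ≤ _ := pow_le_pow_right₀ (by norm_num) a4

theorem core {a X ρ : ℕ} (ha : 1 ≤ a) (hX : X ≠ 0) (h1 : (300000 * ρ) ^ 3 ≤ Nat.log 2 X + 1)
    (h2 : Nat.log 2 X + 1 < (300000 * (ρ + 1)) ^ 3) (h3 : (600000 * ρ) ^ 252 ≤ 2 ^ ρ) (h4 : a ≤ ρ) :
    ∃ (l K : ℕ) (W R : ℝ), Par a X l W R ∧ Cnd3 X l K R ∧
      Tot3 a l K W R ≤ exp (-(1 / 2000000 * log X ^ (1 / 3 : ℝ))) := by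
  have x1 : 2 ^ Nat.log 2 X ≤ X := Nat.pow_log_le_self 2 hX
  have x2 : X < 2 ^ (Nat.log 2 X + 1) := Nat.lt_pow_succ_log_self (by norm_num) X
  have x3 : 2 ^ (Nat.log 2 X + 1) ≤ 2 * X := by rw [pow_succ]; omega
  have r1 : 1 ≤ ρ := ha.trans h4
  have r3 : ρ ≤ ρ ^ 3 := Nat.le_self_pow (by norm_num) _
  have x4 : 2 ^ (ρ * 300) ≤ X := (two_le (by rw [mul_pow] at h1; omega)).trans x1
  generalize Nat.log 2 X + 1 = l at h1 h2 x2 x3
  have a1 : l + 1 ≤ (600000 * ρ) ^ 3 := h2.trans_le (Nat.pow_le_pow_left (by omega) _)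
  have a2 : (l + 1) ^ 84 ≤ 2 ^ ρ := (Nat.pow_le_pow_left a1 _).trans (by rwa [← pow_mul])
  have a3 : 1000 * ρ ≤ l := by rw [mul_pow] at h1; omega
  have a4 : (l + 1) ^ 3 ≤ 2 ^ ρ := (Nat.pow_le_pow_right (by omega) (by norm_num)).trans a2
  have a5 : 13000000 * ρ ≤ 2 ^ ρ := by
    refine le_trans ?_ ((Nat.pow_le_pow_right (by omega) (show 2 ≤ 252 by norm_num)).trans h3)
    nlinarith
  have l1 : (1000 : ℝ) ≤ l := by exact_mod_cast (by omega : 1000 ≤ l)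
  have al : (a : ℝ) ≤ l := by exact_mod_cast (by omega : a ≤ l)
  refine ⟨l, 176 * ρ, (l : ℝ) ^ 2, 2 ^ ρ, ⟨ha, by omega, x2, le_rfl, ?_, ?_, ?_⟩,
    cnd3 x3 h1 r1 a5, ?_⟩
  · exact_mod_cast le_trans (by nlinarith) a4
  · rw [← pow_mul]; exact_mod_cast x4
  · exact_mod_cast (by omega : a ≤ 2 ^ ρ)
  have b0 : (l : ℝ) + 1 ≤ (l + 1) ^ 3 := le_self_pow₀ (by linarith) (by norm_num)
  have h := AsyP.tot_le (a := a) (l := l) (P := (l + 1) ^ 3) (r := 2 ^ ρ)
    (A := (2 ^ ρ) ^ 175 / 2 ^ (176 * ρ)) (B := a * (1 + l ^ 2) / 2 ^ ρ) (by linarith) (by linarith)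
    b0 (by positivity) (by positivity) (le_of_eq (by rw [pow_mul']; field_simp)) (by positivity)
    (div_le_div_of_nonneg_right (by nlinarith [mul_le_mul_of_nonneg_right al (sq_nonneg (l : ℝ))])
      (by positivity))
  refine le_trans (le_of_eq (by unfold Tot3; ring)) (h.trans ?_)
  have e1 : (2 : ℝ) ^ ρ = exp (ρ * log 2 / 2) ^ 2 := by
    rw [← exp_nat_mul, show ((2 : ℕ) : ℝ) * (ρ * log 2 / 2) = ρ * log 2 by push_cast; ring,
      exp_nat_mul, exp_log two_pos]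
  have b1 : (((l : ℝ) + 1) ^ 3) ^ 14 ≤ exp (ρ * log 2 / 2) := by
    refine le_of_pow_le_pow_left₀ two_ne_zero (exp_pos _).le ?_
    rw [← e1, ← pow_mul, ← pow_mul]
    exact_mod_cast a2
  have b2 : log X ^ (1 / 3 : ℝ) ≤ 600000 * ρ := by
    have c0 : (1 : ℝ) ≤ X := by exact_mod_cast Nat.pos_of_ne_zero hX
    refine le_of_pow_le_pow_left₀ three_ne_zero (by positivity) ?_
    rw [cube (log_nonneg c0)]
    have c1 : (X : ℝ) ≤ 2 ^ l := by exact_mod_cast x2.le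
    have c2 := log_le_log (by linarith) c1
    have c3 : (l : ℝ) + 1 ≤ (600000 * ρ) ^ 3 := by exact_mod_cast a1
    rw [log_pow] at c2
    nlinarith [log_two_lt_d9]
  calc _ ≤ exp (ρ * log 2 / 2) / exp (ρ * log 2 / 2) ^ 2 := by rw [e1]; gcongr
    _ = exp (-(ρ * log 2 / 2)) := by rw [exp_neg]; field_simp
    _ ≤ _ := exp_le_exp.2 (by nlinarith [log_two_gt_d9, Nat.cast_nonneg (α := ℝ) ρ])

theorem ev_pow (C k : ℕ) : ∀ᶠ ρ : ℕ in atTop, (C * ρ) ^ k ≤ 2 ^ ρ := by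
  have h := (tendsto_pow_const_div_const_pow_of_one_lt k (show (1 : ℝ) < 2 by norm_num)).const_mul
    ((C : ℝ) ^ k)
  rw [mul_zero] at h
  filter_upwards [h.eventually_le_const one_pos] with ρ hρ
  rw [← mul_div_assoc, div_le_one (by positivity), ← mul_pow] at hρ
  exact_mod_cast hρ

theorem asy (a : ℕ) (ha : 1 ≤ a) :
    ∀ᶠ X : ℕ in atTop, ∃ (l K : ℕ) (W R : ℝ), Par a X l W R ∧ Cnd3 X l K R ∧
      Tot3 a l K W R ≤ exp (-(1 / 2000000 * log X ^ (1 / 3 : ℝ))) := by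
  obtain ⟨r, hr⟩ := eventually_atTop.1 ((ev_pow 600000 252).and (eventually_ge_atTop a))
  filter_upwards [eventually_ge_atTop (2 ^ (300000 * r) ^ 3)] with X hX
  have ex : ∃ ρ, Nat.log 2 X + 1 < (300000 * (ρ + 1)) ^ 3 := ⟨Nat.log 2 X + 1,
    lt_of_lt_of_le (by omega) (Nat.le_self_pow (by norm_num) _)⟩
  have h2 := Nat.find_spec ex
  have h3 : r ≤ Nat.find ex := by
    have b1 := ((Nat.le_log_of_pow_le (by norm_num) hX).trans (Nat.le_succ _)).trans_lt h2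
    have b2 := lt_of_pow_lt_pow_left₀ 3 (Nat.zero_le _) b1
    omega
  refine core ha (by have := Nat.one_le_two_pow.trans hX; omega) ?_ h2 (hr _ h3).1 (hr _ h3).2
  have h4 := Nat.find_min ex (show Nat.find ex - 1 < Nat.find ex by have := (hr _ h3).2; omega)
  rw [Nat.sub_add_cancel (ha.trans (hr _ h3).2)] at h4
  omega

theorem dyadic (P : ℕ → Prop) {c : ℝ} (hc : 0 < c)
    (H : ∀ᶠ X : ℕ in atTop, ∀ N : Finset ℕ, (∀ n ∈ N, X < 2 * n ∧ n ≤ X ∧ P n) →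
      (N.card : ℝ) ≤ √X * exp (-(c * log X ^ (1 / 3 : ℝ)))) :
    ∀ᶠ x : ℝ in atTop, ∀ N : Finset ℕ, (∀ n ∈ N, (n : ℝ) ≤ x ∧ P n) →
      (N.card : ℝ) ≤ √x * exp (-(c / 4 * log x ^ (1 / 3 : ℝ))) := by
  obtain ⟨X0, H⟩ := eventually_atTop.1 H
  have t1 : Tendsto (fun x : ℝ => log x ^ (1 / 3 : ℝ)) atTop atTop :=
    (tendsto_rpow_atTop (by norm_num)).comp tendsto_log_atTop
  have t2 : Tendsto (fun x : ℝ => exp (log x / 4)) atTop atTop :=
    tendsto_exp_atTop.comp (tendsto_log_atTop.atTop_div_const (by norm_num))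
  filter_upwards [t1.eventually_ge_atTop 8, t1.eventually_ge_atTop c,
    t1.eventually_ge_atTop (36864 / c ^ 4), t2.eventually_ge_atTop X0,
    eventually_ge_atTop 1, tendsto_log_atTop.eventually_ge_atTop 2] with x u1 u2 u3 hX hx hL N hN
  have hL0 : 0 < log x := by linarith
  have cu := cube hL0.le
  set v := log x ^ (1 / 3 : ℝ) with hv
  rw [div_le_iff₀ (by positivity)] at u3
  have ha : 6 * log x ≤ exp (c / 4 * v) := by
    have h2 := pow_div_factorial_le_exp (c / 4 * v) (by positivity) 4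
    have h3 : (c / 4 * v) ^ 4 / (Nat.factorial 4 : ℝ) = v ^ 3 * (v * c ^ 4) / 6144 := by
      norm_num [Nat.factorial]; ring
    rw [h3, cu] at h2
    nlinarith
  have hb : 2 + c / 4 * v ≤ log x / 4 := by
    rw [← cu]
    nlinarith [mul_le_mul_of_nonneg_right u2 (show 0 ≤ v by linarith),
      mul_le_mul_of_nonneg_right u1 (sq_nonneg v)]
  set t := exp (log x / 4) with ht
  set E := exp (-(c / 4 * v)) with hE
  have hE0 : 0 < E := exp_pos _
  have hs : √x = t * t := by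
    rw [ht, ← exp_add, sqrt_eq_iff_mul_self_eq (by linarith) (exp_pos _).le, ← exp_add]
    rw [show log x / 4 + log x / 4 + (log x / 4 + log x / 4) = log x by ring,
      exp_log (by linarith)]
  have ht1 : 1 ≤ t := one_le_exp (by positivity)
  have key := Dy.dy P ⌊t⌋₊ ⌊x⌋₊ (√x * (E * E)) (by positivity) (fun X h1 h2 M hM => by
      have b1 : t ≤ X := (Nat.lt_of_floor_lt h1).le
      have b2 : (X : ℝ) ≤ x := le_trans (by exact_mod_cast h2) (Nat.floor_le (by linarith))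
      have b3 : X0 ≤ X := by exact_mod_cast hX.trans b1
      have b5 : log x / 4 ≤ log X := (le_log_iff_exp_le (by linarith)).2 b1
      have b4 : v / 2 ≤ log X ^ (1 / 3 : ℝ) := by
        refine le_of_pow_le_pow_left₀ three_ne_zero (rpow_nonneg (by linarith) _) ?_
        rw [cube (by linarith), div_pow, cu]
        linarith
      refine (H X b3 M hM).trans ?_
      rw [hE, ← exp_add]
      gcongr
      nlinarith)
    (Nat.log 2 ⌊x⌋₊ + 1) ⌊x⌋₊ le_rfl (Nat.lt_pow_succ_log_self (by norm_num) _) N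
    fun n hn => ⟨Nat.le_floor (hN n hn).1, (hN n hn).2⟩
  have c1 : (⌊t⌋₊ : ℝ) ≤ t := Nat.floor_le (by linarith)
  have c2 : ((Nat.log 2 ⌊x⌋₊ + 1 : ℕ) : ℝ) ≤ 3 * log x := by
    push_cast
    linarith [Dy.log_le hx]
  have c3 : 6 * log x * E ≤ 1 := by
    calc 6 * log x * E ≤ exp (c / 4 * v) * E := by gcongr
      _ = 1 := by rw [hE, ← exp_add]; simp
  have c4 : 4 ≤ t * E := by
    rw [ht, hE, ← exp_add]
    have e1 : exp 2 ≤ exp (log x / 4 + -(c / 4 * v)) := exp_le_exp.2 (by linarith)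
    have e2 := quadratic_le_exp_of_nonneg (x := 2) (by norm_num)
    linarith
  have c5 : ((Nat.log 2 ⌊x⌋₊ + 1 : ℕ) : ℝ) * (√x * (E * E)) ≤ √x * E / 2 := by
    calc _ ≤ 3 * log x * (√x * (E * E)) := by gcongr
      _ = 6 * log x * E * (√x * E / 2) := by ring
      _ ≤ 1 * (√x * E / 2) := by gcongr
      _ = _ := one_mul _
  have c6 : 4 * t ≤ √x * E := by
    rw [hs]
    nlinarith
  linarith

theorem one_k {a k X l K : ℕ} {W R : ℝ} (hP : Par a X l W R) (hc : Cnd3 X l K R)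
    (N : Finset ℕ) (hN : ∀ n ∈ N, Sol a k X n) :
    (N.card : ℝ) ≤ √X * (3 * a ^ 2 * (l * (a * (1 + W)) * l ^ 6 / R + l ^ 4 / R +
      R ^ 175 * l ^ 3 / 2 ^ K + l * (a * (1 + W)) * l / R)) := by
  classical
  have hC := p_Code p_Farey
  have hG := p_Gap p_K
  have a1 := p_T p_Farey hC p_Harm a k X l W R (N.filter (ClT k X W R)) hP
    fun n hn => ⟨hN n (mem_filter.1 hn).1, (mem_filter.1 hn).2⟩
  have a2 := p_Q hC p_Harm a k X l W R (N.filter (ClQ X R)) hP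
    fun n hn => ⟨hN n (mem_filter.1 hn).1, (mem_filter.1 hn).2⟩
  have a3 := p_M hC p_Harm a k X l K W R (N.filter (ClM X K R)) hP
    fun n hn => ⟨hN n (mem_filter.1 hn).1, (mem_filter.1 hn).2⟩
  have a4 := cardW p_Harm hP hc (N.filter (ClW a k X l K W R))
    fun n hn => ⟨hN n (mem_filter.1 hn).1, (mem_filter.1 hn).2⟩
  have hs : N ⊆ N.filter (ClT k X W R) ∪ N.filter (ClQ X R) ∪ N.filter (ClM X K R) ∪
      N.filter (ClW a k X l K W R) := fun n hn => by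
    simp only [mem_union, mem_filter, hn, true_and]
    rcases le_or_gt (pw n : ℝ) (R ^ 56) with h | h
    · have := main hG hP hc (hN n hn) h
      tauto
    · rcases lt_or_ge (√X) (pr (PP n) : ℝ) with h' | h'
      · have := p_PowA hG a k X l n W R hP (hN n hn) h h'
        tauto
      · have := p_PowB hG a k X l n W R hP (hN n hn) h h'
        tauto
  have hd : N.card ≤ (N.filter (ClT k X W R)).card + (N.filter (ClQ X R)).card +
      (N.filter (ClM X K R)).card + (N.filter (ClW a k X l K W R)).card :=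
    (card_le_card hs).trans ((card_union_le _ _).trans (Nat.add_le_add_right
      ((card_union_le _ _).trans (Nat.add_le_add_right (card_union_le _ _) _)) _))
  have hd' : (N.card : ℝ) ≤ (N.filter (ClT k X W R)).card + (N.filter (ClQ X R)).card +
      (N.filter (ClM X K R)).card + (N.filter (ClW a k X l K W R)).card := by exact_mod_cast hd
  linarith

theorem all_k {a X l K : ℕ} {W R : ℝ} (hP : Par a X l W R) (hc : Cnd3 X l K R) (N : Finset ℕ)
    (hN : ∀ n ∈ N, X < 2 * n ∧ n ≤ X ∧ sg n ≡ a [MOD n] ∧ ¬ Reg a n) :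
    (N.card : ℝ) ≤ √X * Tot3 a l K W R := by
  have hs : ∀ n ∈ N, Sol a ((sg n - a) / n) X n := fun n hn => by
    obtain ⟨b1, b2, b3, b4⟩ := hN n hn
    have c1 : (X : ℝ) < 2 * n := by exact_mod_cast b1
    have c2 : R ^ 2 ≤ R ^ 300 := pow_le_pow_right₀ (by linarith [hP.R32]) (by norm_num)
    have c3 : (a : ℝ) ≤ n := by nlinarith [hP.RX, hP.R32, hP.aR]
    have c4 : a ≤ sg n := le_trans (by exact_mod_cast c3) (le_sg n)
    refine ⟨b1, b2, ?_, b4⟩
    rw [Nat.div_mul_cancel ((Nat.modEq_iff_dvd' c4).1 b3.symm)]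
    omega
  have hm : Set.MapsTo (fun n => (sg n - a) / n) (N : Set ℕ) (range (l + 1) : Finset ℕ) :=
    fun n hn => by
      have := p_K a _ X l n hP.l4 hP.Xl (hs n hn)
      simp only [coe_range, Set.mem_Iio]
      omega
  rw [card_eq_sum_card_fiberwise hm, Nat.cast_sum]
  refine (sum_le_sum fun k _ => one_k (k := k) hP hc _ fun n hn => by
    have := hs n (mem_filter.1 hn).1
    rwa [(mem_filter.1 hn).2] at this).trans (le_of_eq ?_)
  rw [sum_const, card_range, nsmul_eq_mul, Tot3]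
  push_cast
  ring

/-- The counting theorem. -/
theorem count (a : ℕ) (ha : 1 ≤ a) :
    ∀ᶠ x : ℝ in atTop, (Set.ncard {n : ℕ | (n : ℝ) ≤ x ∧ sg n ≡ a [MOD n] ∧ ¬ Reg a n} : ℝ) ≤
      √x * exp (-(1 / 8000000 * log x ^ (1 / 3 : ℝ))) := by
  have h := dyadic (fun n => sg n ≡ a [MOD n] ∧ ¬ Reg a n) (c := 1 / 2000000) (by norm_num) (by
    filter_upwards [asy a ha] with X ⟨l, K, W, R, hP, hc, hB⟩ N hN
    refine (all_k hP hc N hN).trans ?_
    gcongr)
  filter_upwards [h] with x hx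
  have hf : {n : ℕ | (n : ℝ) ≤ x ∧ sg n ≡ a [MOD n] ∧ ¬ Reg a n}.Finite :=
    (Set.finite_le_nat ⌊x⌋₊).subset fun n hn => Nat.le_floor hn.1
  rw [Set.ncard_eq_toFinset_card _ hf, show (1 / 8000000 : ℝ) = 1 / 2000000 / 4 by norm_num]
  exact hx _ fun n hn => (hf.mem_toFinset.1 hn)

end Pool.Agent.P.MP_df609a_nt.Dt
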