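import Pool.Agent.P.MP_df609a_nt.Dt.Few

/-! The choice of the parameters for the count of good primes. -/

namespace Pool.Agent.P.MP_df609a_nt.Dt

open Finset

theorem two_le {a b : ℕ} (h : a ≤ b) : 2 ^ a ≤ 2 ^ b := Nat.pow_le_pow_right (by norm_num) h

theorem kH_le {κ e i q : ℕ} (he : e = 80 * κ + 1) (h1 : 2000000 * e * q ≤ i)
    (hw : 500 * e ≤ 2 ^ q) : κ * (2 ^ q) ^ (206601 * e) ≤ 2 ^ (i / 8) := by
  calc κ * (2 ^ q) ^ (206601 * e) ≤ 2 ^ q * (2 ^ q) ^ (206601 * e) := by gcongr; omega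
    _ = 2 ^ (q + q * (206601 * e)) := by rw [← pow_mul, ← pow_add]
    _ ≤ _ := two_le ((Nat.le_div_iff_mul_le (by norm_num)).2 (by
      nlinarith [Nat.mul_le_mul_left q (show 1 ≤ e by omega)]))

theorem num {κ e i q : ℕ} (hκ : 1 ≤ κ) (he : e = 80 * κ + 1) (h1 : 2000000 * e * q ≤ i)
    (h2 : i ≤ 4000000 * e * q) (hw : 500 * e ≤ 2 ^ q) :
    Num (2 ^ i) (2 ^ (i + i / 2)) (2 ^ (i * (10 * κ))) ((2 ^ q) ^ (240000 + 1)) ((2 ^ q) ^ 240000)
      (2 ^ q) (40 * κ) (49 * e) (107 * e) κ (50 * e + κ) ((2 ^ q) ^ (206601 * e)) := by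
  have q1 : 1 ≤ q := Nat.pos_of_ne_zero (by rintro rfl; omega)
  have e1 : 2 * (40 * κ) + 1 = e := by omega
  have iq : q ≤ i := le_trans (Nat.le_mul_of_pos_left _ (by omega)) h1
  have b1 : 2 * (i / 2) ≤ i := Nat.mul_div_le _ _
  have qe := Nat.mul_le_mul_left q (show 81 ≤ e by omega)
  have qk := Nat.mul_le_mul_left q (show κ ≤ e by omega)
  refine ⟨two_le (a := 1) (by omega), Nat.one_le_two_pow, Nat.pos_of_ne_zero (by positivity),
    Nat.one_le_two_pow, by omega, hκ, ?_, ?_, ?_, by omega, ?_, by omega, ?_⟩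
  · have a1 : 16 * (2 * (40 * κ)) ^ 2 ≤ (2 ^ q) ^ 2 := by
      rw [show 16 * (2 * (40 * κ)) ^ 2 = (320 * κ) ^ 2 by ring]
      exact Nat.pow_le_pow_left (by omega) _
    calc _ ≤ 2 ^ q * ((2 ^ q) ^ 2 * 2 ^ (i + i / 2) * ((2 ^ q) ^ (240000 + 1)) ^ (4 * (40 * κ))) ^
          (40 * κ) * 2 ^ (i * (10 * κ)) * ((2 ^ q) ^ (240000 + 1)) ^ (2 * (40 * κ)) := by
          gcongr; omega
      _ = 2 ^ (q + (q * 2 + (i + i / 2) + q * (240000 + 1) * (4 * (40 * κ))) * (40 * κ) +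
          i * (10 * κ) + q * (240000 + 1) * (2 * (40 * κ))) := by simp only [← pow_mul, ← pow_add]
      _ ≤ 2 ^ (i * (2 * (40 * κ))) := by
          refine two_le ?_
          generalize i / 2 = h at b1 ⊢
          subst he
          have b2 := Nat.mul_le_mul_left κ h1
          have b3 := Nat.mul_le_mul_left κ b1
          have b4 := Nat.mul_le_mul_left q hκ
          nlinarith [Nat.zero_le (q * κ * κ)]
      _ = _ := by rw [← pow_mul]
  · rw [e1]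
    calc e * 2 ^ q ≤ 2 ^ q * 2 ^ q := by gcongr; omega
      _ = (2 ^ q) ^ 2 := by ring
      _ ≤ _ := Nat.pow_le_pow_right Nat.one_le_two_pow (by omega)
  · rw [e1, ← mul_assoc 2 (κ * _), ← mul_assoc 2 κ]
    calc _ ≤ 2 ^ (i + i / 2) * 2 ^ q * (2 ^ q * 2 ^ q) ^ (49 * e) *
          (2 ^ q * (2 ^ q) ^ (206601 * e) * (2 ^ q) ^ κ) := by gcongr <;> omega
      _ = 2 ^ (i + i / 2 + q + (q + q) * (49 * e) + (q + q * (206601 * e) + q * κ)) := by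
          simp only [← pow_mul, ← pow_add]
      _ < 2 ^ (q * 240000 * (49 * e)) := Nat.pow_lt_pow_right (by norm_num) (by nlinarith)
      _ = _ := by simp only [← pow_mul]
  · have a1 : κ * (2 ^ q) ^ (206601 * e) ≤ 2 ^ i := (kH_le he h1 hw).trans (two_le (by omega))
    have a2 : 2 ^ (i + i / 2) ≤ (2 ^ i) ^ 2 := by rw [← pow_mul]; exact two_le (by omega)
    have a3 : 2 * 2 ^ i ≤ (2 ^ i) ^ 2 := by
      rw [← pow_mul, ← pow_succ']; exact two_le (by omega)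
    have a4 : 2 ^ q ≤ 2 ^ i := two_le iq
    have a5 : 50 * e + κ + 2 ≤ 2 ^ i := by omega
    rw [pow_mul 2 i (10 * κ)]
    have a6 : 1 ≤ 2 ^ i := Nat.one_le_two_pow
    generalize 2 ^ i = P at *
    have a7 : P ^ (10 * κ) ≤ P ^ (1 + κ + 2 * (50 * e + κ)) := Nat.pow_le_pow_right a6 (by omega)
    calc _ ≤ P ^ (10 * κ) * ((50 * e + κ) * (P * P ^ κ * P ^ 2 * (P ^ 2) ^ (50 * e + κ)) +
          (P ^ 2 + P ^ 2) * P ^ (1 + κ + 2 * (50 * e + κ))) := by gcongr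
      _ = P ^ (10 * κ) * ((50 * e + κ + 2) * P ^ (3 + κ + 2 * (50 * e + κ))) := by ring
      _ ≤ P ^ (10 * κ) * (P * P ^ (3 + κ + 2 * (50 * e + κ))) := by gcongr
      _ = P ^ (10 * κ + (3 + κ + 2 * (50 * e + κ) + 1)) := by rw [← pow_succ', ← pow_add]
      _ ≤ _ := Nat.pow_le_pow_right a6 (by omega)
  · calc _ ≤ (2 ^ q * (2 ^ q) ^ (50 * e + κ)) ^ (50 * e + κ) := by gcongr; omega
      _ = (2 ^ q) ^ ((50 * e + κ + 1) * (50 * e + κ)) := by rw [← pow_succ', ← pow_mul]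
      _ ≤ (2 ^ q) ^ (51 * e * (4051 * κ)) :=
          Nat.pow_le_pow_right Nat.one_le_two_pow (Nat.mul_le_mul (by omega) (by omega))
      _ = ((2 ^ q) ^ (206601 * e)) ^ κ := by rw [← pow_mul _ (206601 * e)]; congr 1; ring
      _ < _ := Nat.pow_lt_pow_left (Nat.lt_succ_self _) (by omega)

/-- The count of good primes. -/
theorem fewD {A B U V : ℤ} {κ e i q : ℕ} {G : Finset ℕ} {t u v : ℕ → ℤ} (hκ : 1 ≤ κ)
    (he : e = 80 * κ + 1) (hq : q = i / (2000000 * e)) (hw : 500 * e ≤ 2 ^ q) (hA : 0 < A)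
    (hB : B ≠ 0) (hZ : A ≤ 2 ^ (i * (10 * κ))) (hc : A * U - B * V ≠ 0)
    (hc' : 2 ^ (i / 8) * (4 * 2 ^ i) ^ (κ - 1) * |A * U - B * V| < A)
    (hG : ∀ p ∈ G, p.Prime ∧ 2 ^ i ≤ p ∧ p ≤ 2 * 2 ^ i ∧
      Good A B U V (2 ^ (i + i / 2)) (2 ^ (i * (10 * κ))) p (t p) (u p) (v p)) :
    G.card * 2 ^ q ≤ 500 * e * 2 ^ i := by
  have q1 : 1 ≤ q := Nat.pos_of_ne_zero (by rintro rfl; omega)
  have h1 : 2000000 * e * q ≤ i := hq ▸ Nat.mul_div_le _ _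
  have h2 : i ≤ 4000000 * e * q := by
    have := Nat.lt_mul_div_succ i (show 0 < 2000000 * e by omega)
    rw [← hq] at this
    nlinarith [Nat.zero_le e]
  have e1 : 2 * (40 * κ) + 1 = e := by omega
  have h := few (num hκ he h1 h2 hw) hA hB (by exact_mod_cast hZ) hc (lt_of_le_of_lt (by
    gcongr
    exact_mod_cast Nat.mul_le_mul_right _ (kH_le he h1 hw)) hc') hG
  obtain ⟨d, hd⟩ : ∃ d, i = q * (240000 + 1) + d := Nat.exists_eq_add_of_le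
    (le_trans (by nlinarith [Nat.mul_le_mul_left q (show 1 ≤ e by omega)]) h1)
  have a1 : 2 ^ i = (2 ^ q) ^ (240000 + 1) * 2 ^ d := by rw [← pow_mul, ← pow_add, ← hd]
  rw [e1, a1, Nat.mul_div_cancel_left _ (Nat.one_le_pow _ _ Nat.one_le_two_pow), pow_succ _ 240000,
    Nat.mul_div_cancel _ Nat.one_le_two_pow] at h
  rw [a1, pow_succ _ 240000]
  have a2 : 1 ≤ (2 ^ q) ^ 240000 := Nat.one_le_pow _ _ Nat.one_le_two_pow
  have a3 : 1 ≤ 2 ^ d := Nat.one_le_two_pow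
  generalize (2 ^ q) ^ 240000 = Λ at *
  calc G.card * 2 ^ q ≤ (e * (2 * Λ + Λ) + 107 * e * (Λ + Λ)) * (2 ^ d + 2 ^ d) * 2 ^ q := by
        gcongr
        refine h.trans ?_
        gcongr
    _ = 434 * e * (Λ * 2 ^ q * 2 ^ d) := by ring
    _ ≤ _ := by gcongr; norm_num

end Pool.Agent.P.MP_df609a_nt.Dt
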