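import Mathlib

/-! Approximation of a rational function by a polynomial far from its poles. -/

namespace Pool.Agent.P.MP_df609a_nt.Dt

open Finset Polynomial

theorem coef_bound (s : Multiset ℂ) {ε : ℝ} (hε : 0 ≤ ε) (h : ∀ c ∈ s, ‖c‖ ≤ ε) :
    (s.map fun c => 1 + C c * X).prod.coeff 0 = 1 ∧
      (s.map fun c => 1 + C c * X).prod.natDegree ≤ s.card ∧
      ∀ i, ‖(s.map fun c => 1 + C c * X).prod.coeff i‖ ≤ (s.card * ε) ^ i := by
  induction s using Multiset.induction_on with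
  | empty =>
    refine ⟨by simp, by simp, fun i => ?_⟩
    rcases i with _ | i <;> simp [coeff_one]
  | cons c s ih =>
    obtain ⟨a1, a2, a3⟩ := ih fun d hd => h d (Multiset.mem_cons_of_mem hd)
    have hc := h c (Multiset.mem_cons_self _ _)
    rw [Multiset.map_cons, Multiset.prod_cons, Multiset.card_cons]
    generalize (s.map fun c => 1 + C c * X).prod = f at a1 a2 a3
    have e0 : ((1 + C c * X) * f).coeff 0 = 1 := by simp [a1]
    refine ⟨e0, natDegree_mul_le.trans ?_, fun i => ?_⟩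
    · have : (1 + C c * X).natDegree ≤ 1 := by compute_degree
      omega
    · rcases i with _ | i
      · simp [e0]
      · rw [add_mul, one_mul, mul_assoc, coeff_add, coeff_C_mul, coeff_X_mul]
        have b1 : ((s.card : ℝ) * ε) ^ i ≤ ((s.card + 1) * ε) ^ i := by gcongr; linarith
        calc _ ≤ ‖f.coeff (i + 1)‖ + ‖c‖ * ‖f.coeff i‖ := by
              rw [← norm_mul]; exact norm_add_le _ _
          _ ≤ (s.card * ε) ^ (i + 1) + ε * (s.card * ε) ^ i := by gcongr; exacts [a3 _, a3 _]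
          _ = (s.card * ε) ^ i * ((s.card + 1) * ε) := by ring
          _ ≤ ((s.card + 1) * ε) ^ i * ((s.card + 1) * ε) := by gcongr
          _ = _ := by push_cast; ring

theorem inv_trunc {γ : ℂ[X]} {μ : ℝ} (hμ : 0 ≤ μ) (h0 : γ.coeff 0 = 1)
    (h : ∀ i, ‖γ.coeff i‖ ≤ μ ^ i) (N : ℕ) :
    ∃ H : ℂ[X], H.natDegree ≤ N ∧ (∀ i < N, (1 - H * γ).coeff i = 0) ∧
      ∀ i, ‖(1 - H * γ).coeff i‖ ≤ 2 ^ N * μ ^ i := by
  induction N with
  | zero =>
    refine ⟨0, by simp, by simp, fun i => ?_⟩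
    rcases i with _ | i
    · simp
    · simp [coeff_one]; positivity
  | succ N ih =>
    obtain ⟨H, a1, a2, a3⟩ := ih
    have e : ∀ i, (1 - (H + C ((1 - H * γ).coeff N) * X ^ N) * γ).coeff i =
        (1 - H * γ).coeff i - (1 - H * γ).coeff N * if N ≤ i then γ.coeff (i - N) else 0 :=
      fun i => by
        rw [add_mul, ← sub_sub, coeff_sub, mul_assoc, coeff_C_mul, coeff_X_pow_mul']
    refine ⟨H + C ((1 - H * γ).coeff N) * X ^ N, (natDegree_add_le _ _).trans (max_le (by omega)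
      ((natDegree_C_mul_X_pow_le _ _).trans (by omega))), fun i hi => ?_, fun i => ?_⟩
    · rw [e]
      rcases (Nat.lt_succ_iff.1 hi).lt_or_eq with hi | rfl
      · rw [a2 i hi, if_neg (by omega)]; simp
      · simp [h0]
    · rw [e]
      refine (norm_sub_le _ _).trans ?_
      have b : ‖(1 - H * γ).coeff N * if N ≤ i then γ.coeff (i - N) else 0‖ ≤ 2 ^ N * μ ^ i := by
        split_ifs with c
        · rw [norm_mul]
          calc _ ≤ 2 ^ N * μ ^ N * μ ^ (i - N) := by gcongr; exacts [a3 _, h _]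
            _ = _ := by rw [mul_assoc, ← pow_add, Nat.add_sub_cancel' c]
        · rw [mul_zero, norm_zero]; positivity
      linarith [a3 i, pow_succ (2 : ℝ) N ▸ (by ring : 2 ^ N * 2 * μ ^ i = 2 ^ N * μ ^ i + 2 ^ N * μ ^ i)]

theorem eval_small {R : ℂ[X]} {μ w : ℝ} {N e : ℕ} {d : ℂ} (hμ : 0 ≤ μ) (hd : ‖d‖ ≤ w)
    (hw : μ * w ≤ 1) (h0 : R.natDegree ≤ N + e) (h1 : ∀ i < N, R.coeff i = 0)
    (h2 : ∀ i, ‖R.coeff i‖ ≤ 2 ^ N * μ ^ i) : ‖R.eval d‖ ≤ (e + 1) * (2 * (μ * w)) ^ N := by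
  have w0 : 0 ≤ w := (norm_nonneg _).trans hd
  rw [eval_eq_sum_range' (Nat.lt_succ_of_le h0), show (N + e).succ = N + (e + 1) from rfl,
    sum_range_add, sum_eq_zero fun i hi => by rw [h1 i (mem_range.1 hi), zero_mul], zero_add]
  refine (norm_sum_le _ _).trans ((sum_le_card_nsmul _ _ ((2 * (μ * w)) ^ N) fun i _ => ?_).trans
    (by simp))
  have b : (μ * w) ^ i ≤ 1 := pow_le_one₀ (by positivity) hw
  rw [norm_mul, norm_pow]
  calc _ ≤ 2 ^ N * μ ^ (N + i) * w ^ (N + i) := by gcongr; exact h2 _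
    _ = (2 * (μ * w)) ^ N * (μ * w) ^ i := by ring
    _ ≤ (2 * (μ * w)) ^ N * 1 := by gcongr
    _ = _ := mul_one _

theorem approx {G F : ℂ[X]} (hG : G ≠ 0) {e : ℕ} (N : ℕ) (dG : G.natDegree ≤ e)
    (dF : F.natDegree ≤ e) {y : ℂ} {Λ w : ℝ} (hΛ : 0 < Λ) (far : ∀ z ∈ G.roots, Λ ≤ ‖y - z‖)
    (hw : e * w ≤ Λ) :
    ∃ ψ : ℂ[X], ψ.natDegree ≤ N + e ∧ ∀ x t : ℂ, ‖x - y‖ ≤ w → t * G.eval x = F.eval x →
      ‖t - ψ.eval x‖ ≤ ‖t‖ * ((e + 1) * (2 * (e / Λ * w)) ^ N) := by
  have hz : ∀ z ∈ G.roots, y - z ≠ 0 := fun z hz h0 => by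
    have := far z hz
    rw [h0, norm_zero] at this
    linarith
  obtain ⟨a1, a2, a3⟩ := coef_bound (G.roots.map fun z => (y - z)⁻¹) (ε := 1 / Λ) (by positivity)
    fun c hc => by
      obtain ⟨z, h1, rfl⟩ := Multiset.mem_map.1 hc
      rw [norm_inv, ← one_div]
      exact one_div_le_one_div_of_le hΛ (far z h1)
  have hc : G.roots.card ≤ e := (card_roots' G).trans dG
  rw [Multiset.card_map] at a2 a3
  have ev : ∀ x, G.eval x = G.eval y *
      ((G.roots.map fun z => (y - z)⁻¹).map fun c => 1 + C c * X).prod.eval (x - y) := fun x => by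
    have hs := (IsAlgClosed.splits G).eval_eq_prod_roots
    rw [hs x, hs y, eval_multiset_prod, Multiset.map_map, Multiset.map_map, mul_assoc,
      ← Multiset.prod_map_mul]
    congr 2
    refine Multiset.map_congr rfl fun z h1 => ?_
    have := hz z h1
    simp only [Function.comp, eval_add, eval_one, eval_mul, eval_C, eval_X]
    field_simp
    ring
  have hy : G.eval y ≠ 0 := fun h0 => hz y ((mem_roots hG).2 h0) (sub_self _)
  generalize ((G.roots.map fun z => (y - z)⁻¹).map fun c => 1 + C c * X).prod = γ at a1 a2 a3 ev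
  have hμ : (0 : ℝ) ≤ e / Λ := by positivity
  obtain ⟨H, b1, b2, b3⟩ := inv_trunc hμ a1 (fun i => (a3 i).trans (by
    rw [mul_one_div]
    gcongr)) N
  refine ⟨C (G.eval y)⁻¹ * (H.comp (X - C y) * F), (natDegree_C_mul_le _ _).trans
    (natDegree_mul_le.trans (Nat.add_le_add (natDegree_comp_le.trans (by
      rw [natDegree_X_sub_C]; omega)) dF)), fun x t hx ht => ?_⟩
  have c1 := eval_small (R := 1 - H * γ) (e := e) hμ hx
    (by rw [div_mul_eq_mul_div, div_le_one hΛ]; exact hw)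
    ((natDegree_sub_le _ _).trans (max_le (by simp) (natDegree_mul_le.trans (by omega)))) b2 b3
  have c2 : t - (C (G.eval y)⁻¹ * (H.comp (X - C y) * F)).eval x =
      t * (1 - H * γ).eval (x - y) := by
    simp only [eval_mul, eval_C, eval_comp, eval_sub, eval_X, eval_one]
    rw [← ht, ev x]
    field_simp
  rw [c2, norm_mul]
  gcongr

end Pool.Agent.P.MP_df609a_nt.Dt
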