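import Pool.Agent.P.MP_df609a_nt.Dt.Cls
import Pool.Agent.P.MP_df609a_nt.Ct.Comb
import Pool.Agent.P.MP_df609a_nt.Ct.Cut

/-! Every solution with a small powerful part lies in one of three classes. -/

namespace Pool.Agent.P.MP_df609a_nt.Dt

open Finset Ct

variable {a k X l K n : ℕ} {W R : ℝ} {S : Finset ℕ}

/-- The largest prime outside the greedy set is large. -/
theorem top {P : Finset ℕ} (h : Comb.Hy X R P S) (hl : 2 ^ l ≤ 2 * X) (hc : P.card ≤ 2 * K) :
    ∃ p ∈ P \ S, l ≤ 8 * K * (Nat.log 2 p + 1) := by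
  have r1 := h.R1
  have a1 := h.prE
  have a2 := sqrt_ge h.RX
  have a3 : 2 * R ^ 114 ≤ R ^ 150 := by
    calc _ ≤ R * R ^ 114 := by gcongr; linarith [h.R32]
      _ = R ^ 115 := by ring
      _ ≤ _ := pow_le_pow_right₀ r1 (by norm_num)
  have a4 := h.Y1
  have a5 : √(X : ℝ) * √X = X := Real.mul_self_sqrt (Nat.cast_nonneg _)
  have a6 : 2 * √X ≤ (pr (P \ S) : ℝ) ^ 2 := by
    refine le_of_mul_le_mul_left ?_ (show 0 < √(X : ℝ) by linarith)
    calc _ = 2 * √(X : ℝ) ^ 2 := by ring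
      _ ≤ 2 * (R ^ 57 * pr (P \ S)) ^ 2 := by gcongr
      _ = 2 * R ^ 114 * (pr (P \ S) : ℝ) ^ 2 := by ring
      _ ≤ _ := by gcongr; linarith
  have a7 : 4 * X ≤ pr (P \ S) ^ 4 := by
    have := pow_le_pow_left₀ (by positivity) a6 2
    rw [mul_pow, sq √_, a5, ← pow_mul] at this
    norm_num at this
    exact_mod_cast this
  have a8 : 1 ≤ 2 ^ l := Nat.one_le_two_pow
  rcases (P \ S).eq_empty_or_nonempty with h0 | h0
  · rw [h0] at a7
    simp only [pr, prod_empty] at a7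
    omega
  obtain ⟨p, hp, hm⟩ := exists_max_image _ (fun q => q) h0
  refine ⟨p, hp, (Nat.pow_le_pow_iff_right (a := 2) (by norm_num)).1 ?_⟩
  have b1 : pr (P \ S) ≤ (2 ^ (Nat.log 2 p + 1)) ^ (2 * K) :=
    (prod_le_pow_card _ _ _ fun q hq => (hm q hq).trans
      (Nat.lt_pow_succ_log_self (by norm_num) p).le).trans
      (Nat.pow_le_pow_right Nat.one_le_two_pow ((card_le_card sdiff_subset).trans hc))
  calc 2 ^ l ≤ pr (P \ S) ^ 4 := by omega
    _ ≤ ((2 ^ (Nat.log 2 p + 1)) ^ (2 * K)) ^ 4 := by gcongr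
    _ = _ := by rw [← pow_mul, ← pow_mul]; congr 1; ring

theorem clW (hG : S_Gap) (hP : Par a X l W R) (hc : Cnd3 X l K R) (h : Sol a k X n)
    (hy : Comb.Hy X R (PP n) S) (hk : (PP n).card ≤ 2 * K) :
    ClW a k X l K W R n := by
  obtain ⟨p, he, hl⟩ := top hy hc.lX hk
  have hp := (mem_sdiff.1 he).1
  have hR := hP.R32
  have hpp := PP_prime hp
  have hpf := PP_subset n hp
  set i := Nat.log 2 p with hi
  have i1 : 2 ^ i ≤ p := Nat.pow_log_le_self 2 hpp.ne_zero
  have i2 : p < 2 ^ (i + 1) := Nat.lt_pow_succ_log_self (by norm_num) p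
  have i3 : 1 ≤ 2 ^ i := Nat.one_le_two_pow
  have j1 : (2 : ℝ) ^ i ≤ p := by exact_mod_cast i1
  have j3 : (1 : ℝ) ≤ 2 ^ i := by exact_mod_cast i3
  have y1 : 1 ≤ √((2 : ℝ) ^ i) := Real.one_le_sqrt.2 j3
  have y2 : √((2 : ℝ) ^ i) ≤ p := by
    refine le_trans ?_ j1
    rw [Real.sqrt_le_left (by positivity)]
    nlinarith
  obtain ⟨T, hT, g1, g2⟩ := greedy ((PP n).filter fun q => q < p) y1
  have hb := Cut.reach hy.den hp y2 hT g1
  set A := n.primeFactors.filter fun q => q < p with hA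
  set F := insert p (S.filter fun q => p < q) with hFd
  obtain ⟨hF, hFp, -⟩ := hy.ins hp
  have hTP : T ⊆ PP n := hT.trans (filter_subset _ _)
  have hTA : T ⊆ A := hT.trans (filter_subset_filter _ (PP_subset n))
  have hAF : A ⊆ n.primeFactors \ F := fun q hq => by
    have := mem_filter.1 hq
    exact mem_sdiff.2 ⟨this.1, fun h3 => by have := hFp q h3; omega⟩
  have e1 : U n (A \ T) * pr T = below n p := by
    rw [← U_PP hTP, ← U_union sdiff_disjoint, sdiff_union_of_subset hTA]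
    rfl
  have e2 : U n (A \ T) * pr T * U n ((n.primeFactors \ F) \ A) = U n (n.primeFactors \ F) := by
    rw [e1]
    change U n A * _ = _
    rw [← U_union disjoint_sdiff, union_sdiff_of_subset hAF]
  have e3 : pr F = p * up S p := pr_insert (by simp)
  have e4 : n = U n (n.primeFactors \ F) * (p * up S p) := e3 ▸ split_PP h.ne hF
  obtain ⟨c1, c2, -⟩ := gap_below hG hP h hpf i3 i1
  have c3 : Nat.Coprime (U n (A \ T)) (pr T) := by rw [← U_PP hTP]; exact U_coprime sdiff_disjoint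
  rw [← e1, ab_mul c3] at c1 c2
  obtain ⟨d1, d2⟩ := (un_U h.ne (sdiff_subset (t := F))).le h.pos
  obtain ⟨m1, m2, m3⟩ := TQ.mem_three (e2 ▸ d1) (e2 ▸ d2.trans h.hi)
  have hb2 : (2 : ℝ) ^ i ≤ R ^ 114 * (pr T : ℝ) ^ 2 := by
    have := pow_le_pow_left₀ (by positivity) hb 2
    rwa [Real.sq_sqrt (by positivity), mul_pow, ← pow_mul] at this
  have oA : (p : ℝ) * (up S p : ℝ) ^ 2 ≤ R ^ 118 * X := by
    have := pow_le_pow_left₀ (by positivity) (hy.outA hp).le 2
    rwa [mul_pow, mul_pow, Real.sq_sqrt (by positivity), Real.sq_sqrt (by positivity),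
      ← pow_mul] at this
  have oB := hy.outB he
  have X0 : (0 : ℝ) < X := by exact_mod_cast h.pos.trans h.hi
  have lo : (X : ℝ) < 2 * (U n (n.primeFactors \ F) * (p * up S p)) := by
    exact_mod_cast e4 ▸ h.lo
  have hi' : (U n (n.primeFactors \ F) * (p * up S p) : ℝ) ≤ X := by exact_mod_cast e4 ▸ h.hi
  refine ⟨i, U n (A \ T), pr T, U n ((n.primeFactors \ F) \ A),
    (Nat.pow_lt_pow_iff_right (by norm_num)).1
      ((i1.trans ((Nat.le_of_mem_primeFactors hpf).trans h.hi)).trans_lt hP.Xl), hl, m1, ?_,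
    (mem_Icc.1 m3).1, ?_, p, up S p, e2 ▸ e4, ?_, ?_, hpp, i1, by omega, ?_, ?_⟩
  · unfold TQ.Bs
    refine mem_filter.2 ⟨m2, h.gcd_dvd ?_, ?_, by exact_mod_cast c2, c1⟩
    · rw [← U_PP hTP]; exact un_U h.ne (hTP.trans (PP_subset n))
    · have : (pr T : ℝ) ^ 2 ≤ 2 ^ i := (Real.le_sqrt (by positivity) (by positivity)).1 g2
      exact_mod_cast this
  · rw [← e2] at hi'
    push_cast at hi'
    have c0 : (0 : ℝ) < U n (A \ T) := by exact_mod_cast U_pos _ _
    generalize (U n (A \ T) : ℝ) = c at *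
    generalize (U n ((n.primeFactors \ F) \ A) : ℕ) = u at *
    rw [le_div_iff₀ c0, le_div_iff₀ (by positivity)]
    refine le_of_pow_le_pow_left₀ two_ne_zero (by positivity) ?_
    rw [mul_pow (R ^ 116), Real.sq_sqrt X0.le]
    refine le_of_mul_le_mul_right ?_ X0
    have r0 : 0 ≤ R ^ 114 * (pr T : ℝ) ^ 2 := le_trans (by linarith) hb2
    calc _ = (u * c) ^ 2 * ((2 : ℝ) ^ i * 2 ^ i * X) := by ring
      _ ≤ (u * c) ^ 2 * (R ^ 114 * (pr T : ℝ) ^ 2 * p * (R ^ 118 * (p * (up S p : ℝ) ^ 2))) :=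
          mul_le_mul_of_nonneg_left (mul_le_mul (mul_le_mul hb2 j1 (by linarith) r0)
            oB.le X0.le (mul_nonneg r0 (Nat.cast_nonneg _))) (sq_nonneg _)
      _ = (R ^ 116) ^ 2 * (c * pr T * u * (p * up S p)) ^ 2 := by ring
      _ ≤ (R ^ 116) ^ 2 * (X : ℝ) ^ 2 := by gcongr
      _ = _ := by ring
  · rw [e2, ← e3, ← U_PP hF]; exact U_coprime sdiff_disjoint
  · refine Nat.Coprime.prod_right fun q hq => (Nat.coprime_primes hpp
      (PP_prime (hy.sub (mem_filter.1 hq).1))).2 (mem_filter.1 hq).2.ne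
  · rw [e2]
    refine le_of_mul_le_mul_right ?_ X0
    calc (X : ℝ) * X ≤ (2 * (U n (n.primeFactors \ F) * (p * up S p))) ^ 2 := by
          rw [← sq]; gcongr
      _ = 4 * (p * (U n (n.primeFactors \ F) : ℝ) ^ 2) * (p * (up S p : ℝ) ^ 2) := by ring
      _ ≤ 4 * (p * (U n (n.primeFactors \ F) : ℝ) ^ 2) * (R ^ 118 * X) := by gcongr
      _ = _ := by ring
  · refine hb2.trans ?_
    gcongr
    exact (Nat.le_mul_of_pos_left _ (mem_Icc.1 m1).1).trans
      (Nat.le_mul_of_pos_right _ (mem_Icc.1 m3).1)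

theorem main (hG : S_Gap) (hP : Par a X l W R) (hc : Cnd3 X l K R) (h : Sol a k X n)
    (hw : (pw n : ℝ) ≤ R ^ 56) : ClT k X W R n ∨ ClM X K R n ∨ ClW a k X l K W R n := by
  rcases p_Cut hG a k X l n W R hP h hw with h0 | h0
  · exact Or.inl h0
  refine Or.inr ?_
  have hR := hP.R32
  have hW := hP.W16
  have hWR : W ≤ R := by linarith [hP.WR]
  have r1 : (1 : ℝ) ≤ R := by linarith
  have y1 : 1 ≤ √(X : ℝ) := (one_le_pow₀ r1).trans (sqrt_ge hP.RX)
  obtain ⟨S, hS, g1, g2⟩ := greedy (PP n) y1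
  have hi : (n : ℝ) ≤ X := by exact_mod_cast h.hi
  have sq : ∀ p ∈ PP n, (p : ℝ) ^ 2 ≤ R * X := fun p hp => by
    have h1 := le_below hG hP h (PP_subset n hp)
    have h2 : p * below n p ≤ n := by
      have h3 := below_succ (PP_subset n hp)
      rw [(mem_filter.1 hp).2, pow_one] at h3
      rw [← h3]
      exact (U_le (filter_subset _ _)).trans_eq (U_self h.ne)
    have h3 : (p : ℝ) * below n p ≤ n := by exact_mod_cast h2
    calc (p : ℝ) ^ 2 = p * p := sq _
      _ ≤ p * (W * below n p) := by gcongr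
      _ = W * (p * below n p) := by ring
      _ ≤ R * X := by gcongr; exact h3.trans hi
  have big : (X : ℝ) ≤ R ^ 57 * pr (PP n) := by
    have h1 : (X : ℝ) < 2 * (pw n * pr (PP n)) := by
      have := h.lo
      rw [pw_mul_pr h.ne] at this
      exact_mod_cast this
    calc (X : ℝ) ≤ 2 * (pw n * pr (PP n)) := h1.le
      _ ≤ R * (R ^ 56 * pr (PP n)) := by gcongr; linarith
      _ = _ := by ring
  have hy : Comb.Hy X R (PP n) S := ⟨hR, hP.RX, fun p hp => (PP_prime hp).pos, hS, g1,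
    fun q hq => Cut.dens hG hP h hw hq, sq, big, h0⟩
  by_cases hk : (PP n).card ≤ 2 * K
  · exact Or.inr (clW hG hP hc h hy hk)
  refine Or.inl ?_
  have b1 := hy.first
  have w1 : (1 : ℝ) ≤ pw n := by exact_mod_cast pw_pos n
  by_cases hk1 : K ≤ S.card
  · refine ⟨pw n, pr S, by rw [Cut.pw_pr hS]; exact un_U h.ne sdiff_subset, ⟨?_, ?_⟩,
      by rwa [primeFactors_pr fun p hp => PP_prime (hS hp)]⟩
    · push_cast
      refine b1.trans ?_
      gcongr
      exact le_mul_of_one_le_left (by positivity) w1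
    · push_cast
      gcongr
      exact hw.trans (pow_le_pow_right₀ r1 (by norm_num))
  have e : pw n * pr (PP n \ S) = U n (n.primeFactors \ S) := by
    rw [Cut.pw_pr sdiff_subset, Finset.sdiff_sdiff_eq_self hS]
  refine ⟨pw n, pr (PP n \ S), by rw [e]; exact un_U h.ne sdiff_subset, ?_, ?_⟩
  · rw [e]
    refine bal_of h (split_PP h.ne hS) ?_ b1
    have : (2 : ℝ) ≤ R ^ 175 := le_trans (by linarith) (le_self_pow₀ r1 (by norm_num))
    gcongr
  · rw [primeFactors_pr fun p hp => PP_prime (mem_sdiff.1 hp).1]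
    have := card_sdiff_add_card_eq_card hS
    omega

end Pool.Agent.P.MP_df609a_nt.Dt
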